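import Mathlib

set_option autoImplicit false

namespace Pool.Agent.Hhelper66.PiBase

open Set Filter

/-- Raw terms. A leaf is a minimal element with a label. A node has finitely many immediate
predecessors `s j`, a label bit `i`, and a promise `(a, w)`. -/
inductive T : Type
  | leaf (r : ℕ → Bool) (b : List Bool) : T
  | node (k : ℕ) (s : Fin k → T) (i : Bool) (a : ℕ → T) (w : ℕ → T) : T

namespace T

/-- down-set of a term -/
def D : T → Set T
  | leaf r b => {leaf r b}
  | node k s i a w => {node k s i a w} ∪ ⋃ j, D (s j)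

/-- promises below a term -/
def Pr : T → Set ((ℕ → T) × (ℕ → T))
  | leaf _ _ => ∅
  | node _ s _ a w => {(a, w)} ∪ ⋃ j, Pr (s j)

/-- label of a term -/
def lab : T → List Bool
  | leaf _ b => b
  | node _ _ i a _ => lab (a 0) ++ [i]

/-- height of a term (along predecessors) -/
def ht : T → ℕ
  | leaf _ _ => 0
  | node _ s _ _ _ => (Finset.univ.sup fun j => ht (s j)) + 1

theorem mem_D_self (t : T) : t ∈ D t := by
  cases t <;> simp [D]

theorem D_finite (t : T) : (D t).Finite := by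
  induction t with
  | leaf r b => simp [D]
  | node k s i a w ihs _ _ =>
    simp only [D]
    exact (finite_singleton _).union (finite_iUnion ihs)

theorem Pr_finite (t : T) : (Pr t).Finite := by
  induction t with
  | leaf r b => simp [Pr]
  | node k s i a w ihs _ _ =>
    simp only [Pr]
    exact (finite_singleton _).union (finite_iUnion ihs)

theorem mem_D_node {k : ℕ} {s : Fin k → T} {i : Bool} {a w : ℕ → T} {u : T} :
    u ∈ D (node k s i a w) ↔ u = node k s i a w ∨ ∃ j, u ∈ D (s j) := by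
  simp [D]

theorem mem_Pr_node {k : ℕ} {s : Fin k → T} {i : Bool} {a w : ℕ → T}
    {π : (ℕ → T) × (ℕ → T)} :
    π ∈ Pr (node k s i a w) ↔ π = (a, w) ∨ ∃ j, π ∈ Pr (s j) := by
  simp [Pr]

theorem D_trans {t u : T} (h : u ∈ D t) : D u ⊆ D t := by
  induction t with
  | leaf r b =>
    simp only [D, mem_singleton_iff] at h
    subst h; exact subset_rfl
  | node k s i a w ihs _ _ =>
    rcases mem_D_node.1 h with rfl | ⟨j, hj⟩
    · exact subset_rfl
    · intro v hv
      exact mem_D_node.2 (Or.inr ⟨j, ihs j hj hv⟩)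

theorem Pr_mono {t u : T} (h : u ∈ D t) : Pr u ⊆ Pr t := by
  induction t with
  | leaf r b =>
    simp only [D, mem_singleton_iff] at h
    subst h; exact subset_rfl
  | node k s i a w ihs _ _ =>
    rcases mem_D_node.1 h with rfl | ⟨j, hj⟩
    · exact subset_rfl
    · intro v hv
      exact mem_Pr_node.2 (Or.inr ⟨j, ihs j hj hv⟩)

theorem ht_lt {k : ℕ} (s : Fin k → T) (i : Bool) (a w : ℕ → T) (j : Fin k) :
    ht (s j) < ht (node k s i a w) := by
  simp only [ht]
  exact Nat.lt_succ_of_le (Finset.le_sup (f := fun j => ht (s j)) (Finset.mem_univ j))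

theorem ht_le {t u : T} (h : u ∈ D t) : ht u ≤ ht t := by
  induction t with
  | leaf r b =>
    simp only [D, mem_singleton_iff] at h
    subst h; exact le_rfl
  | node k s i a w ihs _ _ =>
    rcases mem_D_node.1 h with rfl | ⟨j, hj⟩
    · exact le_rfl
    · exact (ihs j hj).trans (ht_lt s i a w j).le

theorem D_antisymm {t u : T} (h : u ∈ D t) (h' : t ∈ D u) : u = t := by
  cases t with
  | leaf r b => simpa [D] using h
  | node k s i a w =>
    rcases mem_D_node.1 h with rfl | ⟨j, hj⟩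
    · rfl
    · exact absurd (ht_le h') (not_le.2 ((ht_le hj).trans_lt (ht_lt s i a w j)))

/-- the root of a sequence -/
def R (a : ℕ → T) : Set T := {u | ∀ m, u ∈ D (a m)}

theorem R_finite (a : ℕ → T) : (R a).Finite :=
  (D_finite (a 0)).subset fun _ hu => hu 0

/-- Conditions on a promise `(a, w)` -/
structure Leg (a w : ℕ → T) : Prop where
  mem : ∀ n, w n ∈ D (a n)
  inj : Function.Injective w
  fin : ∀ u, u ∉ R a → {m | u ∈ D (a m)}.Finite
  prom : ∀ n, ∀ π ∈ Pr (a n), w n ∉ R π.1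
  lab : ∀ n, lab (a n) = lab (a 0)

/-- The admissible terms. -/
inductive Adm : T → Prop
  | leaf (r : ℕ → Bool) (b : List Bool) : Adm (leaf r b)
  | node (k : ℕ) (s : Fin k → T) (i : Bool) (a w : ℕ → T)
      (hs : ∀ j, Adm (s j)) (ha : ∀ n, Adm (a n)) (hl : Leg a w)
      (hlab : ∀ j, lab (s j) <+: lab (a 0))
      (hc : ∀ π ∈ Pr (node k s i a w), ∃ n j, s j = π.1 n ∧
        (∀ j', s j' ≠ π.1 n → π.2 n ∉ D (s j')) ∧
        ∀ π' ∈ Pr (node k s i a w), π.2 n ∉ R π'.1) : Adm (node k s i a w)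

theorem Adm.down {t u : T} (ht : Adm t) (h : u ∈ D t) : Adm u := by
  induction ht with
  | leaf r b =>
    simp only [D, mem_singleton_iff] at h
    subst h; exact Adm.leaf _ _
  | node k s i a w hs ha hl hlab hc ihs iha =>
    rcases mem_D_node.1 h with rfl | ⟨j, hj⟩
    · exact Adm.node k s i a w hs ha hl hlab hc
    · exact ihs j hj

theorem Adm.lab_mono {t u : T} (ht : Adm t) (h : u ∈ D t) : lab u <+: lab t := by
  induction ht with
  | leaf r b =>
    simp only [D, mem_singleton_iff] at h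
    subst h; exact List.prefix_rfl
  | node k s i a w hs ha hl hlab hc ihs iha =>
    rcases mem_D_node.1 h with rfl | ⟨j, hj⟩
    · exact List.prefix_rfl
    · refine (ihs j hj).trans ((hlab j).trans ?_)
      simp only [lab]
      exact List.prefix_append _ _

theorem Adm.root_subset {t : T} (ht : Adm t) {π : (ℕ → T) × (ℕ → T)} (h : π ∈ Pr t) :
    R π.1 ⊆ D t := by
  cases ht with
  | leaf r b => simp [Pr] at h
  | node k s i a w hs ha hl hlab hc =>
    obtain ⟨n, j, hj, -, -⟩ := hc π h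
    intro u hu
    exact mem_D_node.2 (Or.inr ⟨j, hj ▸ hu n⟩)

theorem Adm.self_notMem_root {t : T} (ht : Adm t) {π : (ℕ → T) × (ℕ → T)} (h : π ∈ Pr t) :
    t ∉ R π.1 := by
  cases ht with
  | leaf r b => simp [Pr] at h
  | node k s i a w hs ha hl hlab hc =>
    obtain ⟨n, j, hj, -, -⟩ := hc π h
    intro hu
    have h1 : T.node k s i a w ∈ D (s j) := hj ▸ hu n
    exact absurd (ht_le h1) (not_le.2 (ht_lt s i a w j))

theorem Adm.prom_lab {t : T} (ht : Adm t) {π : (ℕ → T) × (ℕ → T)} (h : π ∈ Pr t) :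
    ∀ n, lab (π.1 n) <+: lab t := by
  induction ht with
  | leaf r b => simp [Pr] at h
  | node k s i a w hs ha hl hlab hc ihs iha =>
    intro n
    rcases mem_Pr_node.1 h with rfl | ⟨j, hj⟩
    · simp only [hl.lab n]
      simp only [lab]
      exact List.prefix_append _ _
    · refine (ihs j hj n).trans ((hlab j).trans ?_)
      simp only [lab]
      exact List.prefix_append _ _

/-- A partial list `S` of predecessors, together with protected pairs `F`. -/
structure Valid (a0 : ℕ → T) (N : Set T) (S : Set T) (F : Set (T × T)) : Prop where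
  finS : S.Finite
  finF : F.Finite
  adm : ∀ s ∈ S, Adm s
  lab : ∀ s ∈ S, lab s <+: T.lab (a0 0)
  mem : ∀ e ∈ F, e.1 ∈ S
  sep : ∀ e ∈ F, ∀ s ∈ S, s ≠ e.1 → e.2 ∉ D s
  prom : ∀ e ∈ F, ∀ s ∈ S, ∀ π ∈ Pr s, e.2 ∉ R π.1
  root : ∀ e ∈ F, e.2 ∉ R a0
  avoid : ∀ u ∈ N, ∀ s ∈ S, u ∉ D s

/-- the promise `π` is fulfilled by `F` -/
def Done (F : Set (T × T)) (π : (ℕ → T) × (ℕ → T)) : Prop := ∃ n, (π.1 n, π.2 n) ∈ F

/-- the promise `π` can be fulfilled in every valid configuration -/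
def Ful (a0 : ℕ → T) (N : Set T) (π : (ℕ → T) × (ℕ → T)) : Prop :=
  ∀ S F, Valid a0 N S F → (∃ s ∈ S, π ∈ Pr s) →
    ∃ S' F', Valid a0 N S' F' ∧ S ⊆ S' ∧ F ⊆ F' ∧ Done F' π ∧
      ∀ s ∈ S', ∀ π' ∈ Pr s, (∃ s0 ∈ S, π' ∈ Pr s0) ∨ Done F' π'

theorem Done.mono {F F' : Set (T × T)} (h : F ⊆ F') {π : (ℕ → T) × (ℕ → T)}
    (hd : Done F π) : Done F' π := by
  obtain ⟨n, hn⟩ := hd
  exact ⟨n, h hn⟩

theorem iter {a0 : ℕ → T} {N : Set T} {Q : Set ((ℕ → T) × (ℕ → T))} (hQ : Q.Finite)
    (hful : ∀ π ∈ Q, Ful a0 N π) :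
    ∀ S F, Valid a0 N S F → (∀ π ∈ Q, ∃ s ∈ S, π ∈ Pr s) →
    ∃ S' F', Valid a0 N S' F' ∧ S ⊆ S' ∧ F ⊆ F' ∧ (∀ π ∈ Q, Done F' π) ∧
      ∀ s ∈ S', ∀ π' ∈ Pr s, (∃ s0 ∈ S, π' ∈ Pr s0) ∨ Done F' π' := by
  induction Q, hQ using Set.Finite.induction_on with
  | empty =>
    intro S F hV _
    exact ⟨S, F, hV, subset_rfl, subset_rfl, by simp, fun s hs π' hπ' => Or.inl ⟨s, hs, hπ'⟩⟩
  | @insert π Q hπ hfin ih =>
    intro S F hV hS
    obtain ⟨S1, F1, hV1, hS1, hF1, hd1, hn1⟩ :=
      ih (fun π hπ => hful π (mem_insert_of_mem _ hπ)) S F hV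
        (fun π hπ => hS π (mem_insert_of_mem _ hπ))
    obtain ⟨s, hs, hsπ⟩ := hS π (mem_insert _ _)
    obtain ⟨S2, F2, hV2, hS2, hF2, hd2, hn2⟩ :=
      hful π (mem_insert _ _) S1 F1 hV1 ⟨s, hS1 hs, hsπ⟩
    refine ⟨S2, F2, hV2, hS1.trans hS2, hF1.trans hF2, ?_, ?_⟩
    · intro π' hπ'
      rcases mem_insert_iff.1 hπ' with rfl | h
      · exact hd2
      · exact (hd1 _ h).mono hF2
    · intro s hs π' hπ'
      rcases hn2 s hs π' hπ' with ⟨s1, hs1, h1⟩ | h
      · rcases hn1 s1 hs1 π' h1 with h | h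
        · exact Or.inl h
        · exact Or.inr (h.mono hF2)
      · exact Or.inr h

theorem ful {a0 : ℕ → T} {N : Set T} (hN : N.Finite) (t : T) :
    Adm t → ∀ π ∈ Pr t, Ful a0 N π := by
  induction t with
  | leaf r b => intro _ π hπ; simp [Pr] at hπ
  | node k s i a w ihs iha _ =>
    intro hadm π hπ
    cases hadm with
    | node _ _ _ _ _ hs ha hl hlab hc =>
    rcases mem_Pr_node.1 hπ with rfl | ⟨j, hj⟩
    swap
    · exact ihs j (hs j) π hj
    intro S F hV hS
    obtain ⟨s0, hs0, hs0π⟩ := hS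
    have fD : (⋃ s ∈ S, D s).Finite := hV.finS.biUnion fun s _ => D_finite s
    have fR : (⋃ s ∈ S, ⋃ π ∈ Pr s, R π.1).Finite :=
      hV.finS.biUnion fun s _ => (Pr_finite s).biUnion fun π _ => R_finite π.1
    have c1 : ∀ᶠ n in cofinite, w n ∉ ⋃ s ∈ S, D s :=
      hl.inj.tendsto_cofinite.eventually fD.eventually_cofinite_notMem
    have c2 : ∀ᶠ n in cofinite, w n ∉ ⋃ s ∈ S, ⋃ π ∈ Pr s, R π.1 :=
      hl.inj.tendsto_cofinite.eventually fR.eventually_cofinite_notMem
    have c3 : ∀ᶠ n in cofinite, w n ∉ R a0 :=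
      hl.inj.tendsto_cofinite.eventually (R_finite a0).eventually_cofinite_notMem
    have c4 : ∀ᶠ n in cofinite, ∀ e ∈ F, e.2 ∉ D (a n) := by
      rw [Filter.eventually_all_finite hV.finF]
      intro e he
      have h1 : e.2 ∉ R a := hV.prom e he s0 hs0 _ hs0π
      have h2 := hl.fin e.2 h1
      exact h2.eventually_cofinite_notMem
    have c5 : ∀ᶠ n in cofinite, ∀ u ∈ N, u ∉ D (a n) := by
      rw [Filter.eventually_all_finite hN]
      intro u hu
      have h1 : u ∉ R a := fun h => hV.avoid u hu s0 hs0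
        ((hV.adm s0 hs0).root_subset hs0π h)
      exact (hl.fin u h1).eventually_cofinite_notMem
    obtain ⟨n, h1, h2, h3, h4, h5⟩ :=
      (c1.and (c2.and (c3.and (c4.and c5)))).exists
    simp only [mem_iUnion, not_exists] at h1 h2
    have hV1 : Valid a0 N (insert (a n) S) (insert (a n, w n) F) := by
      refine ⟨hV.finS.insert _, hV.finF.insert _, ?_, ?_, ?_, ?_, ?_, ?_, ?_⟩
      · rintro s (rfl | hs)
        · exact ha n
        · exact hV.adm s hs
      · rintro s (rfl | hs)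
        · exact ((hV.adm s0 hs0).prom_lab hs0π n).trans (hV.lab s0 hs0)
        · exact hV.lab s hs
      · rintro e (rfl | he)
        · exact mem_insert _ _
        · exact mem_insert_of_mem _ (hV.mem e he)
      · rintro e (rfl | he) s (rfl | hs) hne
        · exact absurd rfl hne
        · exact h1 s hs
        · exact h4 e he
        · exact hV.sep e he s hs hne
      · rintro e (rfl | he) s (rfl | hs) π hπ
        · exact hl.prom n π hπ
        · exact h2 s hs π hπ
        · intro h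
          exact h4 e he ((ha n).root_subset hπ h)
        · exact hV.prom e he s hs π hπ
      · rintro e (rfl | he)
        · exact h3
        · exact hV.root e he
      · rintro u hu s (rfl | hs)
        · exact h5 u hu
        · exact hV.avoid u hu s hs
    obtain ⟨S', F', hV', hS', hF', hd', hn'⟩ :=
      iter (Pr_finite (a n)) (fun π hπ => iha n (ha n) π hπ) _ _ hV1
        (fun π hπ => ⟨a n, mem_insert _ _, hπ⟩)
    refine ⟨S', F', hV', (subset_insert _ _).trans hS', (subset_insert _ _).trans hF',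
      ⟨n, hF' (mem_insert _ _)⟩, ?_⟩
    intro s hs π' hπ'
    rcases hn' s hs π' hπ' with ⟨s1, (rfl | hs1), h⟩ | h
    · exact Or.inr (hd' π' h)
    · exact Or.inl ⟨s1, hs1, h⟩
    · exact Or.inr h

theorem exists_node {a w : ℕ → T} {N : Set T} (hN : N.Finite) (hl : Leg a w)
    (ha : ∀ n, Adm (a n)) {n : ℕ} (hn : w n ∉ R a) (hav : ∀ u ∈ N, u ∉ D (a n)) (i : Bool) :
    ∃ (k : ℕ) (s : Fin k → T), Adm (node k s i a w) ∧ (∃ j, s j = a n) ∧
      ∀ u ∈ N, ∀ j, u ∉ D (s j) := by
  have hV : Valid a N {a n} {(a n, w n)} := by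
    refine ⟨finite_singleton _, finite_singleton _, ?_, ?_, ?_, ?_, ?_, ?_, ?_⟩
    · rintro s rfl; exact ha n
    · rintro s rfl; rw [hl.lab n]
    · rintro e rfl; rfl
    · rintro e rfl s rfl h; exact absurd rfl h
    · rintro e rfl s rfl π hπ; exact hl.prom n π hπ
    · rintro e rfl; exact hn
    · rintro u hu s rfl; exact hav u hu
  obtain ⟨S, F, hV', hS, hF, hd, hn'⟩ :=
    iter (Pr_finite (a n)) (fun π hπ => ful hN (a n) (ha n) π hπ) _ _ hV
      (fun π hπ => ⟨a n, rfl, hπ⟩)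
  have hdone : ∀ s ∈ S, ∀ π ∈ Pr s, Done F π := by
    intro s hs π hπ
    rcases hn' s hs π hπ with ⟨s0, rfl, h⟩ | h
    · exact hd π h
    · exact h
  obtain ⟨k, s, hs⟩ : ∃ (k : ℕ) (s : Fin k → T), range s = S := by
    obtain ⟨k, f, -, hf⟩ := hV'.finS.fin_param
    exact ⟨k, f, hf⟩
  have hmem : ∀ j, s j ∈ S := fun j => hs ▸ mem_range_self j
  have key : ∀ e ∈ F, ∃ j, s j = e.1 ∧ (∀ j', s j' ≠ e.1 → e.2 ∉ D (s j')) ∧
      ∀ π' ∈ Pr (node k s i a w), e.2 ∉ R π'.1 := by
    intro e he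
    have h1 := hV'.mem e he
    rw [← hs] at h1
    obtain ⟨j, hj⟩ := h1
    refine ⟨j, hj, fun j' hj' => hV'.sep e he (s j') (hmem j') hj', ?_⟩
    intro π' hπ'
    rcases mem_Pr_node.1 hπ' with rfl | ⟨j', hj'⟩
    · exact hV'.root e he
    · exact hV'.prom e he (s j') (hmem j') π' hj'
  refine ⟨k, s, ?_, ?_, ?_⟩
  · refine Adm.node k s i a w (fun j => hV'.adm _ (hmem j)) ha hl (fun j => hV'.lab _ (hmem j)) ?_
    intro π hπ
    rcases mem_Pr_node.1 hπ with rfl | ⟨j', hj'⟩
    · obtain ⟨j, h1, h2, h3⟩ := key (a n, w n) (hF rfl)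
      exact ⟨n, j, h1, h2, h3⟩
    · obtain ⟨m, hm⟩ := hdone (s j') (hmem j') π hj'
      obtain ⟨j, h1, h2, h3⟩ := key _ hm
      exact ⟨m, j, h1, h2, h3⟩
  · have : a n ∈ S := hS rfl
    rw [← hs] at this
    exact this
  · intro u hu j
    exact hV'.avoid u hu _ (hmem j)

theorem leaf_seq (p : T) : ∃ ρ : ℕ → (ℕ → Bool), Function.Injective ρ ∧
    ∀ m, leaf (ρ m) (lab p) ≠ p := by
  have h : {r : ℕ → Bool | leaf r (lab p) ≠ p}.Infinite := by
    have h1 : {r : ℕ → Bool | leaf r (lab p) = p}.Finite := by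
      apply Set.Subsingleton.finite
      intro r hr r' hr'
      have : leaf r (lab p) = leaf r' (lab p) := hr.trans hr'.symm
      injection this
    exact h1.infinite_compl
  refine ⟨fun n => (h.natEmbedding _ n : ℕ → Bool), ?_, fun m => (h.natEmbedding _ m).2⟩
  intro m n hmn
  exact (h.natEmbedding _).injective (Subtype.ext hmn)

/-- the promise sequence starting at `p` and continuing with leaves -/
def lseq (p : T) (ρ : ℕ → (ℕ → Bool)) : ℕ → T
  | 0 => p
  | n + 1 => leaf (ρ n) (lab p)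

theorem lseq_inj {p : T} {ρ : ℕ → (ℕ → Bool)} (h : Function.Injective ρ)
    (h' : ∀ m, leaf (ρ m) (lab p) ≠ p) : Function.Injective (lseq p ρ) := by
  intro m n hmn
  cases m with
  | zero =>
    cases n with
    | zero => rfl
    | succ n => exact absurd hmn.symm (h' n)
  | succ m =>
    cases n with
    | zero => exact absurd hmn (h' m)
    | succ n =>
      simp only [lseq] at hmn
      injection hmn with h1 h2
      rw [h h1]

theorem lseq_leg {p : T} (hp : Adm p) {ρ : ℕ → (ℕ → Bool)} (h : Function.Injective ρ)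
    (h' : ∀ m, leaf (ρ m) (lab p) ≠ p) : Leg (lseq p ρ) (lseq p ρ) := by
  refine ⟨fun n => mem_D_self _, lseq_inj h h', ?_, ?_, ?_⟩
  · intro u _
    refine Set.Finite.subset (s := {0} ∪ {m | lseq p ρ m = u}) ?_ ?_
    · refine (finite_singleton 0).union (Set.Subsingleton.finite ?_)
      intro m hm n hn
      exact lseq_inj h h' (hm.trans hn.symm)
    · intro m hm
      cases m with
      | zero => exact Or.inl rfl
      | succ m =>
        right
        simp only [lseq, D, mem_ofPred_eq, mem_singleton_iff] at hm ⊢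
        exact hm.symm
  · intro n π hπ
    cases n with
    | zero => exact hp.self_notMem_root hπ
    | succ n => simp [lseq, Pr] at hπ
  · intro n
    cases n <;> simp [lseq, lab]

theorem lseq_root {p : T} {ρ : ℕ → (ℕ → Bool)} (h : Function.Injective ρ) :
    R (lseq p ρ) = ∅ := by
  ext u
  simp only [mem_empty_iff_false, iff_false]
  intro hu
  have h1 := hu 1
  have h2 := hu 2
  simp only [lseq, D, mem_singleton_iff] at h1 h2
  rw [h1] at h2
  injection h2 with h3 h4
  have := h h3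
  omega

theorem extend {p u0 : T} (hp : Adm p) (hu : u0 ∉ D p) (i : Bool) :
    ∃ r, Adm r ∧ p ∈ D r ∧ lab r = lab p ++ [i] ∧ u0 ∉ D r := by
  obtain ⟨ρ, h1, h2⟩ := leaf_seq p
  have main : ∀ ρ : ℕ → (ℕ → Bool), Function.Injective ρ → (∀ m, leaf (ρ m) (lab p) ≠ p) →
      ∃ (k : ℕ) (s : Fin k → T), Adm (node k s i (lseq p ρ) (lseq p ρ)) ∧
        p ∈ D (node k s i (lseq p ρ) (lseq p ρ)) ∧
        lab (node k s i (lseq p ρ) (lseq p ρ)) = lab p ++ [i] ∧
        ∀ j, u0 ∉ D (s j) := by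
    intro ρ h1 h2
    have hadm : ∀ n, Adm (lseq p ρ n) := by
      intro n
      cases n with
      | zero => exact hp
      | succ n => exact Adm.leaf _ _
    obtain ⟨k, s, hk, ⟨j, hj⟩, hav⟩ := exists_node (N := {u0}) (finite_singleton u0)
      (lseq_leg hp h1 h2) hadm (n := 0) (by rw [lseq_root h1]; simp)
      (by rintro u rfl; exact hu) i
    refine ⟨k, s, hk, mem_D_node.2 (Or.inr ⟨j, ?_⟩), rfl, fun j => hav u0 rfl j⟩
    rw [hj]
    exact mem_D_self p
  obtain ⟨k, s, hk1, hk2, hk3, hk4⟩ := main ρ h1 h2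
  by_cases hne : u0 = node k s i (lseq p ρ) (lseq p ρ)
  · obtain ⟨k', s', hk1', hk2', hk3', hk4'⟩ := main (fun n => ρ (n + 1))
      (fun m n hmn => by have := h1 hmn; omega) (fun m => h2 (m + 1))
    refine ⟨_, hk1', hk2', hk3', ?_⟩
    intro hmem
    rcases mem_D_node.1 hmem with h | ⟨j, hj⟩
    · rw [hne] at h
      injection h with _ _ _ h5 _
      have h6 := congrFun h5 1
      simp only [lseq] at h6
      injection h6 with h7 _
      have := h1 h7
      omega
    · exact hk4' j hj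
  · refine ⟨_, hk1, hk2, hk3, ?_⟩
    intro hmem
    rcases mem_D_node.1 hmem with h | ⟨j, hj⟩
    · exact hne h
    · exact hk4 j hj

/-- the set of good extensions of `w` in `A` -/
def Good (A : Set T) (w : T) : Set T :=
  {a | a ∈ A ∧ w ∈ D a ∧ (∀ v, w ∈ D v → v ∈ D a → v ∈ A) ∧ ∀ π ∈ Pr a, w ∉ R π.1}

theorem self_mem_Good {A : Set T} {w : T} (hw : w ∈ A) (hadm : Adm w) : w ∈ Good A w := by
  refine ⟨hw, mem_D_self w, ?_, fun π hπ => hadm.self_notMem_root hπ⟩
  intro v h1 h2
  rwa [D_antisymm h2 h1]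

theorem exists_max_root (W : Set T) (hW : W.Infinite) (m : T → T) (k : ℕ)
    (hk : ∀ w ∈ W, (D (m w)).ncard = k) :
    ∃ R0 : Finset T, {w | w ∈ W ∧ (R0 : Set T) ⊆ D (m w)}.Infinite ∧
      ∀ u ∉ R0, {w | w ∈ W ∧ (R0 : Set T) ⊆ D (m w) ∧ u ∈ D (m w)}.Finite := by
  classical
  by_contra hcon
  push Not at hcon
  have step : ∀ n : ℕ, ∃ R0 : Finset T, R0.card = n ∧
      {w | w ∈ W ∧ (R0 : Set T) ⊆ D (m w)}.Infinite := by
    intro n
    induction n with
    | zero => exact ⟨∅, rfl, by simpa using hW⟩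
    | succ n ih =>
      obtain ⟨R0, h1, h2⟩ := ih
      obtain ⟨u, hu, hinf⟩ := hcon R0 h2
      refine ⟨insert u R0, by rw [Finset.card_insert_of_notMem hu, h1], ?_⟩
      refine Set.Infinite.mono ?_ hinf
      rintro w ⟨h3, h4, h5⟩
      refine ⟨h3, ?_⟩
      rw [Finset.coe_insert]
      exact insert_subset h5 h4
  obtain ⟨R0, h1, h2⟩ := step (k + 1)
  obtain ⟨w, hw, hsub⟩ := h2.nonempty
  have h3 := ncard_le_ncard hsub (D_finite (m w))
  rw [hk w hw, ncard_coe_finset, h1] at h3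
  omega

/-- Main combinatorial claim. -/
theorem main_claim (A : Set T) (hA : ∀ a ∈ A, Adm a) (hcof : ∀ p, Adm p → ∃ a ∈ A, p ∈ D a) :
    ∃ w ∈ A, ∀ a ∈ Good A w, ∀ i : Bool, ∃ a' ∈ Good A w, a ∈ D a' ∧ lab a ++ [i] <+: lab a' := by
  by_contra hcon
  push Not at hcon
  choose! m hm i hi using hcon
  -- A is uncountable
  have hunc : ¬ A.Countable := by
    intro hc
    have h1 : (⋃ a ∈ A, D a).Countable := hc.biUnion fun a _ => (D_finite a).countable
    have h2 : (univ : Set (ℕ → Bool)) = (fun r : ℕ → Bool => leaf r []) ⁻¹' (⋃ a ∈ A, D a) := by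
      symm
      rw [eq_univ_iff_forall]
      intro r
      obtain ⟨a, ha, h⟩ := hcof (leaf r []) (Adm.leaf _ _)
      exact mem_biUnion ha h
    have h3 : (univ : Set (ℕ → Bool)).Countable := by
      rw [h2]
      exact h1.preimage_of_injOn (fun r _ r' _ h => by injection h)
    have h4 : Countable (ℕ → Bool) := countable_univ_iff.1 h3
    have h5 : Countable (Set ℕ) := by
      classical
      refine Function.Injective.countable (f := fun (s : Set ℕ) (n : ℕ) => decide (n ∈ s)) ?_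
      intro s t hst
      ext n
      have := congrFun hst n
      simpa using this
    obtain ⟨f, hf⟩ := exists_injective_nat (Set ℕ)
    exact Function.cantor_injective f hf
  obtain ⟨⟨k, l, i0⟩, hW⟩ : ∃ v : ℕ × List Bool × Bool,
      {w | w ∈ A ∧ ((D (m w)).ncard, lab (m w), i w) = v}.Infinite := by
    by_contra hfin
    push Not at hfin
    apply hunc
    have : A ⊆ ⋃ v : ℕ × List Bool × Bool,
        {w | w ∈ A ∧ ((D (m w)).ncard, lab (m w), i w) = v} := by
      intro w hw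
      exact mem_iUnion.2 ⟨_, hw, rfl⟩
    exact (countable_iUnion fun v => (hfin v).countable).mono this
  obtain ⟨R0, hR1, hR2⟩ := exists_max_root _ hW m k (fun w hw => by
    have := hw.2
    simp only [Prod.mk.injEq] at this
    exact this.1)
  set W' := {w | w ∈ {w | w ∈ A ∧ ((D (m w)).ncard, lab (m w), i w) = (k, l, i0)} ∧
    (R0 : Set T) ⊆ D (m w)} with hW'
  let e := hR1.natEmbedding
  let w : ℕ → T := fun n => (e n : T)
  let a : ℕ → T := fun n => m (w n)
  have hw : ∀ n, w n ∈ W' := fun n => (e n).2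
  have hwA : ∀ n, w n ∈ A := fun n => (hw n).1.1
  have hwl : ∀ n, lab (a n) = l := fun n => by
    have := (hw n).1.2
    simp only [Prod.mk.injEq] at this
    exact this.2.1
  have hwi : ∀ n, i (w n) = i0 := fun n => by
    have := (hw n).1.2
    simp only [Prod.mk.injEq] at this
    exact this.2.2
  have hinj : Function.Injective w := fun x y h => e.injective (Subtype.ext h)
  have hgood : ∀ n, a n ∈ Good A (w n) := fun n => hm _ (hwA n)
  have hadm : ∀ n, Adm (a n) := fun n => hA _ (hgood n).1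
  have hleg : Leg a w := by
    refine ⟨fun n => (hgood n).2.1, hinj, ?_, fun n π hπ => (hgood n).2.2.2 π hπ, ?_⟩
    · intro u hu
      have hu0 : u ∉ R0 := fun h => hu fun n => (hw n).2 h
      have h1 := (hR2 u hu0).preimage (f := w) hinj.injOn
      refine h1.subset ?_
      intro n hn
      exact ⟨(hw n).1, (hw n).2, hn⟩
    · intro n
      rw [hwl, hwl]
  obtain ⟨n, hn⟩ : ∃ n, w n ∉ R a :=
    (hinj.tendsto_cofinite.eventually (R_finite a).eventually_cofinite_notMem).exists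
  obtain ⟨k', s, hnode, -, -⟩ := exists_node (N := ∅) finite_empty hleg hadm hn (by simp) i0
  obtain ⟨a', ha', hmem⟩ := hcof _ hnode
  have hPr : (a, w) ∈ Pr a' := Pr_mono hmem (mem_Pr_node.2 (Or.inl rfl))
  have hadm' := hA a' ha'
  have hlab' := hadm'.lab_mono hmem
  cases hadm' with
  | leaf r b => simp [Pr] at hPr
  | node k2 s2 i2 a2 w2 hs ha hl hlab hc =>
    obtain ⟨n, j, hj, h1, h2⟩ := hc _ hPr
    simp only at hj h1 h2
    have hmD : a n ∈ D (node k2 s2 i2 a2 w2) :=
      mem_D_node.2 (Or.inr ⟨j, hj ▸ mem_D_self _⟩)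
    have hG : node k2 s2 i2 a2 w2 ∈ Good A (w n) := by
      refine ⟨ha', D_trans hmD (hgood n).2.1, ?_, h2⟩
      intro v hv1 hv2
      rcases mem_D_node.1 hv2 with rfl | ⟨j', hj'⟩
      · exact ha'
      · by_cases hjj : s2 j' = a n
        · rw [hjj] at hj'
          exact (hgood n).2.2.1 v hv1 hj'
        · exact absurd (D_trans hj' hv1) (h1 j' hjj)
    have := hi (w n) (hwA n) _ hG hmD
    apply this
    rw [hwi n]
    change lab (a n) ++ [i0] <+: _
    rw [hwl n, ← hwl 0]
    exact hlab'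

/-! ### Cardinality -/

/-- arities for the encoding in a `WType` -/
def Ar : ((ℕ → Bool) × List Bool) ⊕ (ℕ × Bool) → Type
  | Sum.inl _ => Empty
  | Sum.inr x => Fin x.1 ⊕ (ℕ ⊕ ℕ)

/-- encoding of terms -/
def toW : T → WType Ar
  | leaf r b => WType.mk (Sum.inl (r, b)) (fun x => Empty.elim x)
  | node k s i a w => WType.mk (Sum.inr (k, i))
      (fun x : Fin k ⊕ (ℕ ⊕ ℕ) => match x with
        | Sum.inl j => toW (s j)
        | Sum.inr (Sum.inl n) => toW (a n)
        | Sum.inr (Sum.inr n) => toW (w n))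

theorem toW_inj : Function.Injective toW := by
  intro t
  induction t with
  | leaf r b =>
    intro u h
    cases u with
    | leaf r' b' =>
      simp only [toW, WType.mk.injEq, Sum.inl.injEq, Prod.mk.injEq] at h
      rw [h.1.1, h.1.2]
    | node k s i a w => simp [toW] at h
  | node k s i a w ihs iha ihw =>
    intro u h
    cases u with
    | leaf r' b' => simp [toW] at h
    | node k' s' i' a' w' =>
      simp only [toW, WType.mk.injEq, Sum.inr.injEq, Prod.mk.injEq] at h
      obtain ⟨⟨rfl, rfl⟩, h2⟩ := h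
      have h3 := eq_of_heq h2
      have e1 : s = s' := by
        funext j
        exact ihs j (congrFun h3 (Sum.inl j))
      have e2 : a = a' := by
        funext j
        exact iha j (congrFun h3 (Sum.inr (Sum.inl j)))
      have e3 : w = w' := by
        funext j
        exact ihw j (congrFun h3 (Sum.inr (Sum.inr j)))
      rw [e1, e2, e3]

open Cardinal in
theorem mk_cantor : #(ℕ → Bool) = 𝔠 := by simp

open Cardinal in
theorem mk_T_le : #T ≤ 𝔠 := by
  refine (Cardinal.mk_le_of_injective toW_inj).trans ?_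
  refine WType.cardinalMk_le_of_le ?_
  have h1 : ∀ x : ((ℕ → Bool) × List Bool) ⊕ (ℕ × Bool), 𝔠 ^ #(Ar x) ≤ 𝔠 := by
    intro x
    have h2 : #(Ar x) ≤ ℵ₀ := by
      cases x with
      | inl x =>
        have : Countable (Ar (Sum.inl x)) := inferInstanceAs (Countable Empty)
        exact Cardinal.mk_le_aleph0
      | inr x =>
        have : Countable (Ar (Sum.inr x)) := inferInstanceAs (Countable (Fin x.1 ⊕ (ℕ ⊕ ℕ)))
        exact Cardinal.mk_le_aleph0
    calc 𝔠 ^ #(Ar x) ≤ 𝔠 ^ ℵ₀ := Cardinal.power_le_power_left (by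
          exact (Cardinal.aleph0_pos.trans_le Cardinal.aleph0_le_continuum).ne') h2
      _ = 𝔠 := Cardinal.continuum_power_aleph0
  refine (Cardinal.sum_le_sum _ _ h1).trans ?_
  rw [Cardinal.sum_const']
  have h3 : #(((ℕ → Bool) × List Bool) ⊕ (ℕ × Bool)) ≤ 𝔠 := by
    rw [Cardinal.mk_sum, Cardinal.mk_prod]
    simp only [Cardinal.lift_id]
    have e1 : #(List Bool) ≤ ℵ₀ := Cardinal.mk_le_aleph0
    have e2 : #(ℕ × Bool) ≤ ℵ₀ := Cardinal.mk_le_aleph0
    calc #(ℕ → Bool) * #(List Bool) + #(ℕ × Bool) ≤ 𝔠 * ℵ₀ + ℵ₀ := by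
          refine add_le_add (mul_le_mul' mk_cantor.le e1) e2
      _ = 𝔠 := by simp
  calc #(((ℕ → Bool) × List Bool) ⊕ (ℕ × Bool)) * 𝔠 ≤ 𝔠 * 𝔠 := mul_le_mul' h3 le_rfl
    _ = 𝔠 := Cardinal.continuum_mul_self

open Cardinal in
/-- A Bernstein-type selection: large sets have an injective system of representatives. -/
theorem exists_inj_choice {ι α : Type} (Sx : ι → Set α) (h : ∀ i, #ι ≤ #(Sx i)) :
    ∃ f : ι → α, Function.Injective f ∧ ∀ i, f i ∈ Sx i := by
  obtain ⟨r, wo, hr⟩ := Cardinal.exists_ord_eq ι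
  have hne : ∀ (i : ι) (g : ∀ j, r j i → α), ∃ a ∈ Sx i, ∀ j hj, g j hj ≠ a := by
    intro i g
    by_contra hcon
    push Not at hcon
    have h1 : Sx i ⊆ range (fun j : {j // r j i} => g j.1 j.2) := by
      intro a ha
      obtain ⟨j, hj, hja⟩ := hcon a ha
      exact ⟨⟨j, hj⟩, hja⟩
    have h2 : #(Sx i) ≤ #{j // r j i} := (Cardinal.mk_le_mk_of_subset h1).trans Cardinal.mk_range_le
    have h3 : #{j // r j i} < #ι := Ordinal.card_typein (r := r) i ▸ Cardinal.card_typein_lt i hr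
    exact absurd ((h i).trans h2) (not_le.2 h3)
  have hwf : WellFounded r := wo.wf
  let f : ι → α := hwf.fix (fun i g => (hne i g).choose)
  have hf : ∀ i, f i = (hne i (fun j _ => f j)).choose := fun i => hwf.fix_eq _ i
  have hf1 : ∀ i, f i ∈ Sx i := fun i => by
    rw [hf i]; exact (hne i (fun j _ => f j)).choose_spec.1
  have hf2 : ∀ i j, r j i → f j ≠ f i := fun i j hj => by
    rw [hf i]; exact (hne i (fun j _ => f j)).choose_spec.2 j hj
  refine ⟨f, ?_, hf1⟩
  intro i j hij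
  by_contra hne
  rcases trichotomous_of r i j with h | h | h
  · exact hf2 _ _ h hij
  · exact hne h
  · exact hf2 _ _ h hij.symm

/-! ### Systems of branches and the space -/

/-- perfect systems of admissible terms, indexed by reversed binary words -/
structure Sys where
  σ : List Bool → T
  adm : ∀ s, Adm (σ s)
  step : ∀ s i, σ s ∈ D (σ (i :: s)) ∧ lab (σ s) ++ [i] <+: lab (σ (i :: s))

theorem exists_sys (Q : Set T) (hQ : ∀ q ∈ Q, Adm q)
    (h : ∀ q ∈ Q, ∀ i : Bool, ∃ q' ∈ Q, q ∈ D q' ∧ lab q ++ [i] <+: lab q') (p : T) (hp : p ∈ Q) :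
    ∃ S : Sys, S.σ [] = p ∧ ∀ s, S.σ s ∈ Q := by
  choose! g hg1 hg2 using h
  let σ : List Bool → T := fun s => s.foldr (fun i x => g x i) p
  have hσ : ∀ s, σ s ∈ Q := by
    intro s
    induction s with
    | nil => exact hp
    | cons i s ih => exact hg1 _ ih i
  exact ⟨⟨σ, fun s => hQ _ (hσ s), fun s i => hg2 _ (hσ s) i⟩, rfl, hσ⟩

/-- reversed initial segments of a branch -/
def path (f : ℕ → Bool) : ℕ → List Bool
  | 0 => []
  | n + 1 => f n :: path f n

namespace Sys

/-- the sequence of terms along a branch -/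
def sq (S : Sys) (f : ℕ → Bool) (n : ℕ) : T := S.σ (path f n)

theorem sq_mono (S : Sys) (f : ℕ → Bool) {m n : ℕ} (h : m ≤ n) : S.sq f m ∈ D (S.sq f n) := by
  induction n, h using Nat.le_induction with
  | base => exact mem_D_self _
  | succ n _ ih => exact D_trans (S.step (path f n) (f n)).1 ih

theorem sq_adm (S : Sys) (f : ℕ → Bool) (n : ℕ) : Adm (S.sq f n) := S.adm _

theorem lab_mono (S : Sys) (f : ℕ → Bool) {m n : ℕ} (h : m ≤ n) :
    lab (S.sq f m) <+: lab (S.sq f n) := (S.sq_adm f n).lab_mono (S.sq_mono f h)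

theorem lab_step (S : Sys) (f : ℕ → Bool) (n : ℕ) :
    lab (S.sq f n) ++ [f n] <+: lab (S.sq f (n + 1)) := (S.step (path f n) (f n)).2

theorem le_length (S : Sys) (f : ℕ → Bool) (n : ℕ) : n ≤ (lab (S.sq f n)).length := by
  induction n with
  | zero => exact Nat.zero_le _
  | succ n ih =>
    have := (S.lab_step f n).length_le
    simp only [List.length_append, List.length_cons, List.length_nil] at this
    omega

theorem exists_lim (S : Sys) (f : ℕ → Bool) : ∃ g : ℕ → Bool, ∀ m k,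
    k < (lab (S.sq f m)).length → (lab (S.sq f m))[k]? = some (g k) := by
  refine ⟨fun k => ((lab (S.sq f (k + 1)))[k]?).getD false, ?_⟩
  intro m k hk
  have h1 : k < (lab (S.sq f (k + 1))).length := S.le_length f (k + 1)
  have key : ∀ x y : List Bool, x <+: y → k < x.length → y[k]? = x[k]? := by
    intro x y hxy hx
    obtain ⟨t, rfl⟩ := hxy
    exact List.getElem?_append_left hx
  have h2 : (lab (S.sq f m))[k]? = (lab (S.sq f (k + 1)))[k]? := by
    rcases le_total m (k + 1) with h | h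
    · exact (key _ _ (S.lab_mono f h) hk).symm
    · exact key _ _ (S.lab_mono f h) h1
  rw [h2]
  change (lab (S.sq f (k + 1)))[k]? = some (((lab (S.sq f (k + 1)))[k]?).getD false)
  rw [List.getElem?_eq_getElem h1]
  rfl

/-- the limit label along a branch -/
noncomputable def lim (S : Sys) (f : ℕ → Bool) : ℕ → Bool := (S.exists_lim f).choose

theorem lim_spec (S : Sys) (f : ℕ → Bool) (m k : ℕ) (h : k < (lab (S.sq f m)).length) :
    (lab (S.sq f m))[k]? = some (S.lim f k) := (S.exists_lim f).choose_spec m k h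

theorem path_congr {f g : ℕ → Bool} {n : ℕ} (h : ∀ m < n, f m = g m) : path f n = path g n := by
  induction n with
  | zero => rfl
  | succ n ih =>
    simp only [path]
    rw [h n (Nat.lt_succ_self n), ih fun m hm => h m (Nat.lt_succ_of_lt hm)]

theorem lim_inj (S : Sys) : Function.Injective S.lim := by
  classical
  intro f g hfg
  by_contra hne
  have hex : ∃ n, f n ≠ g n := by
    by_contra h
    push Not at h
    exact hne (funext h)
  let n := Nat.find hex
  have hn : f n ≠ g n := Nat.find_spec hex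
  have hlt : ∀ m < n, f m = g m := fun m hm => by
    have := Nat.find_min hex hm
    push Not at this
    exact this
  have hp : S.sq f n = S.sq g n := by
    simp only [sq]; rw [path_congr hlt]
  have aux : ∀ f : ℕ → Bool, S.lim f (lab (S.sq f n)).length = f n := by
    intro f
    obtain ⟨t, ht⟩ := S.lab_step f n
    have hlen : (lab (S.sq f n)).length < (lab (S.sq f (n + 1))).length := by
      rw [← ht]; simp
    have h1 := S.lim_spec f (n + 1) _ hlen
    rw [← ht, List.append_assoc, List.getElem?_append_right le_rfl] at h1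
    simp only [Nat.sub_self, List.cons_append, List.nil_append, List.getElem?_cons_zero,
      Option.some.injEq] at h1
    exact h1.symm
  apply hn
  rw [← aux f, ← aux g, hfg, hp]

end Sys

open Cardinal in
theorem mk_Sys_le : #Sys ≤ 𝔠 := by
  have h1 : Function.Injective (fun S : Sys => S.σ) := by
    rintro ⟨σ, _, _⟩ ⟨τ, _, _⟩ h
    simp only at h
    subst h
    rfl
  refine (Cardinal.mk_le_of_injective h1).trans ?_
  rw [Cardinal.mk_arrow]
  simp only [Cardinal.lift_id]
  have h2 : #(List Bool) ≤ ℵ₀ := Cardinal.mk_le_aleph0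
  calc #T ^ #(List Bool) ≤ 𝔠 ^ #(List Bool) := Cardinal.power_le_power_right mk_T_le
    _ ≤ 𝔠 ^ ℵ₀ := Cardinal.power_le_power_left
        (Cardinal.aleph0_pos.trans_le Cardinal.aleph0_le_continuum).ne' h2
    _ = 𝔠 := Cardinal.continuum_power_aleph0

theorem exists_branch : ∃ F : Sys → (ℕ → Bool), Function.Injective (fun S : Sys => S.lim (F S)) := by
  obtain ⟨φ, hφ1, hφ2⟩ := exists_inj_choice (fun S : Sys => range S.lim) (by
    intro S
    rw [Cardinal.mk_range_eq _ S.lim_inj, mk_cantor]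
    exact mk_Sys_le)
  choose F hF using hφ2
  refine ⟨F, ?_⟩
  have : (fun S : Sys => S.lim (F S)) = φ := funext hF
  rw [this]
  exact hφ1

/-- the chosen branch of a system -/
noncomputable def br : Sys → (ℕ → Bool) := exists_branch.choose

theorem br_spec : Function.Injective (fun S : Sys => S.lim (br S)) := exists_branch.choose_spec

/-- the basic open set attached to a term -/
def U (p : T) : Set Sys := {S | ∃ n, p ∈ D (S.sq (br S) n)}

/-- the base -/
def Base : Set (Set Sys) := {V | ∃ p, Adm p ∧ V = U p}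

theorem U_mono {p q : T} (h : p ∈ D q) : U q ⊆ U p := by
  rintro S ⟨n, hn⟩
  exact ⟨n, D_trans hn h⟩

theorem exists_sys_avoid {p u0 : T} (hp : Adm p) (hu : u0 ∉ D p) :
    ∃ S : Sys, S.σ [] = p ∧ ∀ s, u0 ∉ D (S.σ s) := by
  obtain ⟨S, h1, h2⟩ := exists_sys {q | Adm q ∧ u0 ∉ D q} (fun q hq => hq.1) (by
    rintro q ⟨hq1, hq2⟩ i
    obtain ⟨r, hr1, hr2, hr3, hr4⟩ := extend hq1 hq2 i
    exact ⟨r, ⟨hr1, hr4⟩, hr2, by rw [hr3]⟩) p ⟨hp, hu⟩
  exact ⟨S, h1, fun s => (h2 s).2⟩

theorem exists_notMem_D (p : T) : ∃ u0, u0 ∉ D p := by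
  obtain ⟨ρ, h1, -⟩ := leaf_seq p
  have hinj : Function.Injective (fun n => leaf (ρ n) []) := by
    intro m n h
    simp only at h
    injection h with h _
    exact h1 h
  have := Set.infinite_range_of_injective hinj
  obtain ⟨u, -, hu⟩ := this.exists_notMem_finite (D_finite p)
  exact ⟨u, hu⟩

theorem exists_sys_root {p : T} (hp : Adm p) : ∃ S : Sys, S.σ [] = p := by
  obtain ⟨u0, hu⟩ := exists_notMem_D p
  obtain ⟨S, h, -⟩ := exists_sys_avoid hp hu
  exact ⟨S, h⟩

theorem mem_U_of_root {S : Sys} {p : T} (h : S.σ [] = p) : S ∈ U p :=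
  ⟨0, by
    have : S.sq (br S) 0 = p := h
    rw [this]
    exact mem_D_self p⟩

theorem U_nonempty {p : T} (hp : Adm p) : (U p).Nonempty := by
  obtain ⟨S, h⟩ := exists_sys_root hp
  exact ⟨S, mem_U_of_root h⟩

theorem mem_D_of_U_subset {p q : T} (hp : Adm p) (h : U p ⊆ U q) : q ∈ D p := by
  by_contra hq
  obtain ⟨S, h1, h2⟩ := exists_sys_avoid hp hq
  obtain ⟨n, hn⟩ := h (mem_U_of_root h1)
  exact h2 _ hn

/-- the topology -/
instance : TopologicalSpace Sys := TopologicalSpace.generateFrom Base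

theorem base_isBasis : TopologicalSpace.IsTopologicalBasis Base := by
  refine ⟨?_, ?_, rfl⟩
  · rintro _ ⟨p, hp, rfl⟩ _ ⟨q, hq, rfl⟩ S ⟨⟨m, hm⟩, ⟨n, hn⟩⟩
    refine ⟨U (S.sq (br S) (max m n)), ⟨_, S.sq_adm _ _, rfl⟩, ⟨_, mem_D_self _⟩, ?_⟩
    exact subset_inter
      (U_mono (D_trans (S.sq_mono _ (le_max_left _ _)) hm))
      (U_mono (D_trans (S.sq_mono _ (le_max_right _ _)) hn))
  · rw [eq_univ_iff_forall]
    intro S
    exact ⟨U (S.σ []), ⟨_, S.adm _, rfl⟩, mem_U_of_root rfl⟩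

theorem isOpen_U {p : T} (hp : Adm p) : IsOpen (U p) :=
  base_isBasis.isOpen ⟨p, hp, rfl⟩

theorem t2 : T2Space Sys := by
  refine ⟨fun S S' hne => ?_⟩
  have h1 : S.lim (br S) ≠ S'.lim (br S') := fun h => hne (br_spec h)
  obtain ⟨k, hk⟩ : ∃ k, S.lim (br S) k ≠ S'.lim (br S') k := by
    by_contra h
    push Not at h
    exact h1 (funext h)
  refine ⟨U (S.sq (br S) (k + 1)), U (S'.sq (br S') (k + 1)), isOpen_U (S.sq_adm _ _),
    isOpen_U (S'.sq_adm _ _), ⟨_, mem_D_self _⟩, ⟨_, mem_D_self _⟩, ?_⟩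
  rw [Set.disjoint_left]
  rintro Z ⟨m, hm⟩ ⟨n, hn⟩
  have key : ∀ (Y : Sys) (m : ℕ), Y.sq (br Y) (k + 1) ∈ D (Z.sq (br Z) m) →
      Z.lim (br Z) k = Y.lim (br Y) k := by
    intro Y m hm
    have hlt : k < (lab (Y.sq (br Y) (k + 1))).length := Y.le_length _ (k + 1)
    obtain ⟨t, ht⟩ := (Z.sq_adm (br Z) m).lab_mono hm
    have hlt' : k < (lab (Z.sq (br Z) m)).length := by
      rw [← ht, List.length_append]; omega
    have e1 := Z.lim_spec (br Z) m k hlt'
    have e2 := Y.lim_spec (br Y) (k + 1) k hlt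
    rw [← ht, List.getElem?_append_left hlt, e2] at e1
    exact (Option.some.inj e1).symm
  exact hk ((key S m hm).symm.trans (key S' n hn))

theorem no_isolated (x : Sys) : ¬ IsOpen ({x} : Set Sys) := by
  intro h
  obtain ⟨V, ⟨p, hp, rfl⟩, hx, hV⟩ := base_isBasis.exists_subset_of_mem_open (mem_singleton x) h
  obtain ⟨u0, hu⟩ := exists_notMem_D p
  obtain ⟨r, hr1, hr2, hr3, -⟩ := extend hp hu false
  obtain ⟨r', hr1', hr2', hr3', -⟩ := extend hp hu true
  obtain ⟨S, hS⟩ := exists_sys_root hr1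
  obtain ⟨S', hS'⟩ := exists_sys_root hr1'
  have h1 : S = x := hV (U_mono hr2 (mem_U_of_root hS))
  have h2 : S' = x := hV (U_mono hr2' (mem_U_of_root hS'))
  rw [h1] at hS
  rw [h2] at hS'
  rw [← hS] at hr3
  rw [← hS'] at hr3'
  rw [hr3] at hr3'
  simp at hr3'

theorem no_split (B0 B1 : Set (Set Sys)) (h0 : B0 ⊆ Base) (h1 : B1 ⊆ Base)
    (hd : Disjoint B0 B1) (hb : TopologicalSpace.IsTopologicalBasis B0)
    (hπ : ∀ W : Set Sys, IsOpen W → W.Nonempty → ∃ V ∈ B1, V ⊆ W) : False := by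
  obtain ⟨w, hw, hgood⟩ := main_claim {p | Adm p ∧ U p ∈ B1} (fun a ha => ha.1) (by
    intro p hp
    obtain ⟨V, hV, hVs⟩ := hπ (U p) (isOpen_U hp) (U_nonempty hp)
    obtain ⟨q, hq, rfl⟩ := h1 hV
    exact ⟨q, ⟨hq, hV⟩, mem_D_of_U_subset hq hVs⟩)
  obtain ⟨S, hS1, hS2⟩ := exists_sys _ (fun q hq => hq.1.1) hgood w (self_mem_Good hw hw.1)
  obtain ⟨V, hV, hSV, hVs⟩ := hb.exists_subset_of_mem_open (mem_U_of_root hS1) (isOpen_U hw.1)
  obtain ⟨p, hp, rfl⟩ := h0 hV
  have hwp : w ∈ D p := mem_D_of_U_subset hp hVs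
  obtain ⟨n, hn⟩ := hSV
  have hG : S.sq (br S) n ∈ Good {p | Adm p ∧ U p ∈ B1} w := hS2 _
  have : p ∈ {p | Adm p ∧ U p ∈ B1} := hG.2.2.1 p hwp hn
  exact Set.disjoint_left.1 hd hV this.2

end T

end Pool.Agent.Hhelper66.PiBase
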