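import Mathlib

set_option autoImplicit false

open scoped Pointwise

namespace Pool.Agent.Hhelper66.Rhombic

/-- The zonotope `[o, x 0] + ... + [o, x (n-1)]` (Minkowski sum of segments) in `ℝ^d`. -/
def zonotope {d n : ℕ} (x : Fin n → EuclideanSpace ℝ (Fin d)) :
    Set (EuclideanSpace ℝ (Fin d)) :=
  ∑ i, segment ℝ 0 (x i)

/-- A rhombic dodecahedron in `ℝ^d`: a zonotope generated by `d + 1` segments whose affine hull
is the whole space. -/
def IsRhombicDodecahedron (d : ℕ) (Z : Set (EuclideanSpace ℝ (Fin d))) : Prop :=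
  (∃ x : Fin (d + 1) → EuclideanSpace ℝ (Fin d), Z = zonotope x) ∧ affineSpan ℝ Z = ⊤

/-- `p 0, ..., p d` are the vertices of a regular simplex centred at the origin: their sum is zero
and any two of them have the same positive distance. -/
def IsCentredRegularSimplex (d : ℕ) (p : Fin (d + 1) → EuclideanSpace ℝ (Fin d)) : Prop :=
  ∑ i, p i = 0 ∧ ∃ l : ℝ, 0 < l ∧ ∀ i j, i ≠ j → dist (p i) (p j) = l

/-- A regular rhombic dodecahedron: a translate of the zonotope generated by the vertices of a
regular simplex centred at the origin. -/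
def IsRegular (d : ℕ) (Z : Set (EuclideanSpace ℝ (Fin d))) : Prop :=
  ∃ (t : EuclideanSpace ℝ (Fin d)) (p : Fin (d + 1) → EuclideanSpace ℝ (Fin d)),
    IsCentredRegularSimplex d p ∧ Z = t +ᵥ zonotope p

/-- The circumradius: the infimum of the radii of closed balls containing the set. -/
noncomputable def circumradius {d : ℕ} (Z : Set (EuclideanSpace ℝ (Fin d))) : ℝ :=
  sInf {r : ℝ | ∃ c, Z ⊆ Metric.closedBall c r}

/-- A rhombic dodecahedron of unit volume whose circumradius is minimal among all rhombic
dodecahedra of unit volume. -/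
def IsCircumradiusMinimiser (d : ℕ) (Z : Set (EuclideanSpace ℝ (Fin d))) : Prop :=
  IsRhombicDodecahedron d Z ∧ MeasureTheory.volume Z = 1 ∧
    ∀ Z' : Set (EuclideanSpace ℝ (Fin d)), IsRhombicDodecahedron d Z' →
      MeasureTheory.volume Z' = 1 → circumradius Z ≤ circumradius Z'

end Pool.Agent.Hhelper66.Rhombic
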