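import Mathlib
import Pool.Agent.Hhelper66.RhombicDefs

set_option autoImplicit false

open scoped Pointwise
open MeasureTheory

namespace Pool.Agent.Hhelper66.Rhombic

variable {d : ℕ}

/-! ### Basic facts on zonotopes and circumradii -/

theorem zonotope_eq {n : ℕ} (x : Fin n → EuclideanSpace ℝ (Fin d)) :
    zonotope x = parallelepiped x := (parallelepiped_eq_sum_segment x).symm

theorem mem_zonotope {n : ℕ} {x : Fin n → EuclideanSpace ℝ (Fin d)}
    {z : EuclideanSpace ℝ (Fin d)} :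
    z ∈ zonotope x ↔ ∃ t : Fin n → ℝ, (∀ i, 0 ≤ t i ∧ t i ≤ 1) ∧ z = ∑ i, t i • x i := by
  rw [zonotope_eq, mem_parallelepiped_iff]
  constructor
  · rintro ⟨t, ht, h⟩
    exact ⟨t, fun i => ⟨ht.1 i, ht.2 i⟩, h⟩
  · rintro ⟨t, ht, h⟩
    exact ⟨t, ⟨fun i => (ht i).1, fun i => (ht i).2⟩, h⟩

theorem norm_le_of_subset_ball {n : ℕ} {x : Fin n → EuclideanSpace ℝ (Fin d)}
    {c : EuclideanSpace ℝ (Fin d)} {r : ℝ} (h : zonotope x ⊆ Metric.closedBall c r)
    {ε : Fin n → ℝ} (hε : ∀ i, ε i = 1 ∨ ε i = -1) : ‖∑ i, ε i • x i‖ ≤ 2 * r := by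
  have h1 : ∑ i, ((1 + ε i) / 2) • x i ∈ zonotope x := by
    refine mem_zonotope.2 ⟨_, fun i => ?_, rfl⟩
    rcases hε i with h | h <;> rw [h] <;> norm_num
  have h2 : ∑ i, ((1 - ε i) / 2) • x i ∈ zonotope x := by
    refine mem_zonotope.2 ⟨_, fun i => ?_, rfl⟩
    rcases hε i with h | h <;> rw [h] <;> norm_num
  have h3 := h h1
  have h4 := h h2
  rw [Metric.mem_closedBall] at h3 h4
  have h5 : ∑ i, ε i • x i = ∑ i, ((1 + ε i) / 2) • x i - ∑ i, ((1 - ε i) / 2) • x i := by
    rw [← Finset.sum_sub_distrib]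
    refine Finset.sum_congr rfl fun i _ => ?_
    rw [← sub_smul]
    congr 1
    ring
  rw [h5, ← dist_eq_norm]
  calc dist _ _ ≤ dist (∑ i, ((1 + ε i) / 2) • x i) c + dist (∑ i, ((1 - ε i) / 2) • x i) c :=
        dist_triangle_right _ _ _
    _ ≤ 2 * r := by linarith

theorem circumradius_set_nonempty {n : ℕ} (x : Fin n → EuclideanSpace ℝ (Fin d)) :
    {r : ℝ | ∃ c, zonotope x ⊆ Metric.closedBall c r}.Nonempty := by
  refine ⟨∑ i, ‖x i‖, 0, ?_⟩
  intro z hz
  obtain ⟨t, ht, rfl⟩ := mem_zonotope.1 hz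
  rw [mem_closedBall_zero_iff]
  refine (norm_sum_le _ _).trans (Finset.sum_le_sum fun i _ => ?_)
  rw [norm_smul, Real.norm_of_nonneg (ht i).1]
  exact mul_le_of_le_one_left (norm_nonneg _) (ht i).2

theorem le_circumradius {n : ℕ} {x : Fin n → EuclideanSpace ℝ (Fin d)}
    {ε : Fin n → ℝ} (hε : ∀ i, ε i = 1 ∨ ε i = -1) :
    ‖∑ i, ε i • x i‖ ≤ 2 * circumradius (zonotope x) := by
  have h : ‖∑ i, ε i • x i‖ / 2 ≤ circumradius (zonotope x) := by
    refine le_csInf (circumradius_set_nonempty x) ?_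
    rintro r ⟨c, hc⟩
    have := norm_le_of_subset_ball hc hε
    linarith
  linarith

theorem circumradius_le {n : ℕ} {x : Fin n → EuclideanSpace ℝ (Fin d)} {r : ℝ}
    (h : ∀ ε : Fin n → ℝ, (∀ i, ε i = 1 ∨ ε i = -1) → ‖∑ i, ε i • x i‖ ≤ 2 * r) :
    circumradius (zonotope x) ≤ r := by
  refine csInf_le ⟨0, ?_⟩ ⟨(1 / 2 : ℝ) • ∑ i, x i, ?_⟩
  · rintro s ⟨c, hc⟩
    have h0 : (0 : EuclideanSpace ℝ (Fin d)) ∈ zonotope x :=
      mem_zonotope.2 ⟨0, fun i => by simp, by simp⟩
    have := hc h0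
    rw [Metric.mem_closedBall] at this
    exact dist_nonneg.trans this
  · rw [zonotope_eq, parallelepiped_eq_convexHull]
    refine convexHull_min ?_ (convex_closedBall _ _)
    intro z hz
    rw [Set.mem_finsetSum] at hz
    obtain ⟨g, hg, rfl⟩ := hz
    have hg' : ∀ i, g i = 0 ∨ g i = x i := fun i => by simpa using hg (Finset.mem_univ i)
    classical
    let ε : Fin n → ℝ := fun i => if g i = x i then 1 else -1
    have hε : ∀ i, ε i = 1 ∨ ε i = -1 := by
      intro i
      simp only [ε]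
      split_ifs <;> simp
    have h1 := h ε hε
    rw [Metric.mem_closedBall, dist_eq_norm]
    have h2 : ∑ i, g i - (1 / 2 : ℝ) • ∑ i, x i = (1 / 2 : ℝ) • ∑ i, ε i • x i := by
      rw [Finset.smul_sum, Finset.smul_sum, ← Finset.sum_sub_distrib]
      refine Finset.sum_congr rfl fun i _ => ?_
      simp only [ε]
      split_ifs with hi
      · rw [hi, one_smul]
        module
      · have : g i = 0 := (hg' i).resolve_right hi
        rw [this]
        module
    rw [h2, norm_smul]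
    norm_num
    linarith

theorem circumradius_vadd (t : EuclideanSpace ℝ (Fin d)) (Z : Set (EuclideanSpace ℝ (Fin d))) :
    circumradius (t +ᵥ Z) = circumradius Z := by
  unfold circumradius
  congr 1
  ext r
  constructor
  · rintro ⟨c, hc⟩
    refine ⟨c - t, fun z hz => ?_⟩
    have := hc (Set.vadd_mem_vadd_set hz)
    rw [Metric.mem_closedBall, vadd_eq_add] at this
    rw [Metric.mem_closedBall]
    rw [dist_eq_norm] at this ⊢
    convert this using 2
    abel
  · rintro ⟨c, hc⟩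
    refine ⟨c + t, ?_⟩
    rintro _ ⟨z, hz, rfl⟩
    have := hc hz
    rw [Metric.mem_closedBall] at this
    simp only [vadd_eq_add]
    rw [Metric.mem_closedBall]
    rw [dist_eq_norm] at this ⊢
    convert this using 2
    abel

/-! ### Volume -/

/-- the determinant of the `d` vectors obtained by deleting `x i` -/
noncomputable def Dt (x : Fin (d + 1) → EuclideanSpace ℝ (Fin d)) (i : Fin (d + 1)) : ℝ :=
  Matrix.det (Matrix.of fun r c : Fin d => x (i.succAbove c) r)

theorem volume_parallelepiped (v : Fin d → EuclideanSpace ℝ (Fin d)) :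
    volume (parallelepiped v) = ENNReal.ofReal |Matrix.det (Matrix.of fun r c : Fin d => v c r)| := by
  have h := Measure.addHaar_parallelepiped (EuclideanSpace.basisFun (Fin d) ℝ).toBasis v
  rw [OrthonormalBasis.addHaar_eq_volume] at h
  rw [h, Module.Basis.det_apply]
  congr 3

/-- the piece of the zonotope obtained by deleting `x i` -/
def piece (x : Fin (d + 1) → EuclideanSpace ℝ (Fin d)) (i : Fin (d + 1)) :
    Set (EuclideanSpace ℝ (Fin d)) := parallelepiped fun c => x (i.succAbove c)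

theorem volume_piece (x : Fin (d + 1) → EuclideanSpace ℝ (Fin d)) (i : Fin (d + 1)) :
    volume (piece x i) = ENNReal.ofReal |Dt x i| := volume_parallelepiped _

theorem mem_piece {x : Fin (d + 1) → EuclideanSpace ℝ (Fin d)} {i : Fin (d + 1)}
    {z : EuclideanSpace ℝ (Fin d)} :
    z ∈ piece x i ↔ ∃ t : Fin (d + 1) → ℝ, (∀ j, 0 ≤ t j ∧ t j ≤ 1) ∧ t i = 0 ∧
      z = ∑ j, t j • x j := by
  rw [piece, mem_parallelepiped_iff]
  constructor
  · rintro ⟨t, ht, h⟩
    refine ⟨Fin.insertNth i 0 t, ?_, by simp, ?_⟩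
    · intro j
      refine Fin.succAboveCases i ?_ ?_ j
      · simp
      · intro c
        simp only [Fin.insertNth_apply_succAbove]
        exact ⟨ht.1 c, ht.2 c⟩
    · rw [Fin.sum_univ_succAbove _ i]
      simp [h]
  · rintro ⟨t, ht, hti, h⟩
    refine ⟨fun c => t (i.succAbove c), ⟨fun c => (ht _).1, fun c => (ht _).2⟩, ?_⟩
    rw [h, Fin.sum_univ_succAbove _ i, hti]
    simp

theorem volume_zonotope_le (x : Fin (d + 1) → EuclideanSpace ℝ (Fin d)) :
    volume (zonotope x) ≤ ∑ i, ENNReal.ofReal |Dt x i| := by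
  -- a nontrivial relation
  obtain ⟨l, hl, hl0⟩ : ∃ l : Fin (d + 1) → ℝ, ∑ i, l i • x i = 0 ∧ ∃ i, l i ≠ 0 := by
    have h : ¬ LinearIndependent ℝ x := by
      intro h
      have := h.fintype_card_le_finrank
      simp at this
    rw [Fintype.not_linearIndependent_iff] at h
    exact h
  let κ : Fin (d + 1) → EuclideanSpace ℝ (Fin d) := fun i => if l i < 0 then x i else 0
  have hcov : zonotope x ⊆ ⋃ i, (κ i +ᵥ piece x i) := by
    intro z hz
    obtain ⟨t, ht, rfl⟩ := mem_zonotope.1 hz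
    classical
    let S : Finset (Fin (d + 1)) := Finset.univ.filter fun i => l i ≠ 0
    have hS : S.Nonempty := by
      obtain ⟨i, hi⟩ := hl0
      exact ⟨i, by simp [S, hi]⟩
    let τ : Fin (d + 1) → ℝ := fun i => if l i < 0 then (t i - 1) / l i else t i / l i
    obtain ⟨i0, hi0, hmin⟩ := S.exists_min_image τ hS
    have hl0' : l i0 ≠ 0 := by simpa [S] using hi0
    have hτ0 : ∀ i ∈ S, 0 ≤ τ i := by
      intro i hi
      simp only [τ]
      split_ifs with h
      · exact div_nonneg_of_nonpos (by linarith [(ht i).2]) h.le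
      · exact div_nonneg (ht i).1 (not_lt.1 h)
    have hτ1 : 0 ≤ τ i0 := hτ0 i0 hi0
    let t' : Fin (d + 1) → ℝ := fun i => t i - τ i0 * l i
    have ht' : ∀ i, 0 ≤ t' i ∧ t' i ≤ 1 := by
      intro i
      simp only [t']
      rcases lt_trichotomy (l i) 0 with h | h | h
      · have h1 := hmin i (by simp [S, h.ne])
        have h2 : τ i * l i = t i - 1 := by
          simp only [τ, if_pos h]; rw [div_mul_cancel₀ _ h.ne]
        have h3 : τ i * l i ≤ τ i0 * l i := mul_le_mul_of_nonpos_right h1 h.le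
        have h4 : τ i0 * l i ≤ 0 := mul_nonpos_of_nonneg_of_nonpos hτ1 h.le
        constructor <;> linarith [(ht i).1, (ht i).2]
      · rw [h]; simpa using ht i
      · have h1 := hmin i (by simp [S, h.ne'])
        have h2 : τ i * l i = t i := by
          simp only [τ, if_neg (not_lt.2 h.le)]; rw [div_mul_cancel₀ _ h.ne']
        have h3 : τ i0 * l i ≤ τ i * l i := mul_le_mul_of_nonneg_right h1 h.le
        have h4 : 0 ≤ τ i0 * l i := mul_nonneg hτ1 h.le
        constructor <;> linarith [(ht i).1, (ht i).2]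
    have hsum : ∑ i, t i • x i = ∑ i, t' i • x i := by
      have : ∑ i, t' i • x i = ∑ i, t i • x i - τ i0 • ∑ i, l i • x i := by
        rw [Finset.smul_sum, ← Finset.sum_sub_distrib]
        refine Finset.sum_congr rfl fun i _ => ?_
        simp only [t', sub_smul, mul_smul]
      rw [this, hl]; simp
    rw [Set.mem_iUnion]
    refine ⟨i0, ?_⟩
    rw [Set.mem_vadd_set]
    by_cases h : l i0 < 0
    · refine ⟨∑ i, (t' i - if i = i0 then 1 else 0) • x i, ?_, ?_⟩
      · refine mem_piece.2 ⟨_, ?_, ?_, rfl⟩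
        · intro j
          split_ifs with hj
          · subst hj
            have : t' j = 1 := by
              simp only [t', τ, if_pos h]; field_simp; ring
            rw [this]; norm_num
          · simpa using ht' j
        · have : t' i0 = 1 := by
            simp only [t', τ, if_pos h]; field_simp; ring
          simp [this]
      · rw [hsum]
        simp only [κ, if_pos h, vadd_eq_add, sub_smul, Finset.sum_sub_distrib, ite_smul, one_smul,
          zero_smul, Finset.sum_ite_eq', Finset.mem_univ, if_true]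
        abel
    · refine ⟨∑ i, t' i • x i, mem_piece.2 ⟨t', ht', ?_, rfl⟩, ?_⟩
      · simp only [t', τ, if_neg h]; field_simp; ring
      · rw [hsum]
        simp only [κ, if_neg h, vadd_eq_add, zero_add]
  calc volume (zonotope x) ≤ volume (⋃ i, (κ i +ᵥ piece x i)) := measure_mono hcov
    _ ≤ ∑ i, volume (κ i +ᵥ piece x i) := measure_iUnion_fintype_le _ _
    _ = ∑ i, ENNReal.ofReal |Dt x i| := by
        refine Finset.sum_congr rfl fun i _ => ?_
        rw [measure_vadd, volume_piece]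

theorem volume_zonotope_eq {x : Fin (d + 1) → EuclideanSpace ℝ (Fin d)}
    {l : Fin (d + 1) → ℝ} (hl : ∑ i, l i • x i = 0) (hpos : ∀ i, 0 < l i)
    (hker : ∀ m : Fin (d + 1) → ℝ, ∑ i, m i • x i = 0 → ∃ t : ℝ, ∀ i, m i = t * l i) :
    volume (zonotope x) = ∑ i, ENNReal.ofReal |Dt x i| := by
  refine le_antisymm (volume_zonotope_le x) ?_
  have hsub : (⋃ i, piece x i) ⊆ zonotope x := by
    refine Set.iUnion_subset fun i z hz => ?_
    obtain ⟨t, ht, -, h⟩ := mem_piece.1 hz
    exact mem_zonotope.2 ⟨t, ht, h⟩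
  have hclosed : ∀ i, IsCompact (piece x i) := by
    intro i
    unfold piece parallelepiped
    refine isCompact_Icc.image ?_
    fun_prop
  have hdisj : Pairwise (Function.onFun (AEDisjoint volume) fun i => piece x i) := by
    intro i j hij
    have h1 : piece x i ∩ piece x j ⊆
        (Submodule.span ℝ (x '' {k | k ≠ i ∧ k ≠ j}) : Set (EuclideanSpace ℝ (Fin d))) := by
      rintro z ⟨hz1, hz2⟩
      obtain ⟨t, ht, hti, h⟩ := mem_piece.1 hz1
      obtain ⟨t', ht', htj, h'⟩ := mem_piece.1 hz2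
      obtain ⟨s, hs⟩ := hker (fun k => t k - t' k) (by
        simp only [sub_smul, Finset.sum_sub_distrib]
        rw [← h, ← h', sub_self])
      have e1 := hs i
      have e2 := hs j
      simp only [hti, htj] at e1 e2
      have s1 : s * l i ≤ 0 := by linarith [(ht' i).1]
      have s2 : 0 ≤ s * l j := by linarith [(ht j).1]
      have s3 : s ≤ 0 := by
        by_contra hc
        push Not at hc
        exact absurd s1 (not_le.2 (mul_pos hc (hpos i)))
      have s4 : 0 ≤ s := by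
        by_contra hc
        push Not at hc
        exact absurd s2 (not_le.2 (mul_neg_of_neg_of_pos hc (hpos j)))
      have s5 : s = 0 := le_antisymm s3 s4
      have s6 : t j = 0 := by
        rw [s5] at e2; linarith
      rw [h]
      refine Submodule.sum_mem _ fun k _ => ?_
      by_cases hki : k = i
      · rw [hki, hti, zero_smul]; exact Submodule.zero_mem _
      by_cases hkj : k = j
      · rw [hkj, s6, zero_smul]; exact Submodule.zero_mem _
      exact Submodule.smul_mem _ _ (Submodule.subset_span ⟨k, ⟨hki, hkj⟩, rfl⟩)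
    have h2 : volume (Submodule.span ℝ (x '' {k | k ≠ i ∧ k ≠ j}) :
        Set (EuclideanSpace ℝ (Fin d))) = 0 := by
      refine Measure.addHaar_submodule _ _ ?_
      intro htop
      have h3 : Module.finrank ℝ (Submodule.span ℝ (x '' {k | k ≠ i ∧ k ≠ j})) ≤
          d - 1 := by
        classical
        have h4 : x '' {k | k ≠ i ∧ k ≠ j} =
            ((((Finset.univ.erase i).erase j).image x : Finset _) :
              Set (EuclideanSpace ℝ (Fin d))) := by
          ext z
          simp only [Set.mem_image, Finset.coe_image, Finset.coe_erase, Finset.coe_univ]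
          constructor
          · rintro ⟨k, hk, rfl⟩
            exact ⟨k, ⟨⟨Set.mem_univ _, hk.1⟩, hk.2⟩, rfl⟩
          · rintro ⟨k, ⟨⟨_, hk1⟩, hk2⟩, rfl⟩
            exact ⟨k, ⟨hk1, hk2⟩, rfl⟩
        rw [h4]
        refine (finrank_span_finset_le_card _).trans (Finset.card_image_le.trans ?_)
        rw [Finset.card_erase_of_mem (by simp [hij.symm]), Finset.card_erase_of_mem (by simp),
          Finset.card_univ, Fintype.card_fin]
        omega
      rw [htop, finrank_top, finrank_euclideanSpace_fin] at h3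
      have : d = 0 := by omega
      subst this
      exact hij (Fin.ext (by omega))
    exact measure_mono_null h1 h2
  calc ∑ i, ENNReal.ofReal |Dt x i| = ∑ i, volume (piece x i) := by simp only [volume_piece]
    _ = volume (⋃ i, piece x i) := by
        rw [measure_iUnion₀ hdisj fun i => (hclosed i).measurableSet.nullMeasurableSet,
          tsum_fintype]
    _ ≤ volume (zonotope x) := measure_mono hsub

/-! ### The determinant -/

/-- the matrix with a constant-like first row `s` and the coordinates of `x` below -/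
noncomputable def Mt (s : Fin (d + 1) → ℝ) (x : Fin (d + 1) → EuclideanSpace ℝ (Fin d)) :
    Matrix (Fin (d + 1)) (Fin (d + 1)) ℝ :=
  Matrix.of fun r j => (Fin.cons (s j) (fun r' => x j r') : Fin (d + 1) → ℝ) r

theorem det_Mt (s : Fin (d + 1) → ℝ) (x : Fin (d + 1) → EuclideanSpace ℝ (Fin d)) :
    (Mt s x).det = ∑ j : Fin (d + 1), (-1) ^ (j : ℕ) * s j * Dt x j := by
  rw [Matrix.det_succ_row_zero]
  refine Finset.sum_congr rfl fun j _ => ?_
  congr 1

theorem Dt_relation (x : Fin (d + 1) → EuclideanSpace ℝ (Fin d)) :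
    ∑ j : Fin (d + 1), ((-1) ^ (j : ℕ) * Dt x j) • x j = 0 := by
  ext r
  have h : (Mt (fun j => x j r) x).det = 0 := by
    refine Matrix.det_zero_of_row_eq (i := 0) (j := r.succ) (Fin.succ_ne_zero r).symm ?_
    ext j
    simp [Mt]
  rw [det_Mt] at h
  simp only [PiLp.zero_apply]
  rw [← h]
  simp only [WithLp.ofLp_sum, WithLp.ofLp_smul, Finset.sum_apply, Pi.smul_apply, smul_eq_mul]
  refine Finset.sum_congr rfl fun j _ => ?_
  ring

theorem det_Mt_const (s : ℝ) (x : Fin (d + 1) → EuclideanSpace ℝ (Fin d)) :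
    (Mt (fun _ => s) x).det = s * (Mt (fun _ => 1) x).det := by
  rw [det_Mt, det_Mt, Finset.mul_sum]
  refine Finset.sum_congr rfl fun j _ => ?_
  ring

theorem det_Mt_shift (x : Fin (d + 1) → EuclideanSpace ℝ (Fin d)) (w : EuclideanSpace ℝ (Fin d)) :
    (Mt (fun _ => 1) fun j => x j + w).det = (Mt (fun _ => 1) x).det := by
  refine Matrix.det_eq_of_forall_row_eq_smul_add_const
    (Fin.cons 0 (fun r => w r) : Fin (d + 1) → ℝ) 0 (by simp) ?_
  intro i j
  refine Fin.cases ?_ (fun r => ?_) i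
  · simp [Mt]
  · simp [Mt]

theorem det_Mt_sign (δ : Fin (d + 1) → ℝ) (hδ : ∀ i, δ i = 1 ∨ δ i = -1)
    (x : Fin (d + 1) → EuclideanSpace ℝ (Fin d)) :
    |(Mt (fun _ => 1) fun j => δ j • x j).det| = |(Mt δ x).det| := by
  have h : (Mt (fun _ => 1) fun j => δ j • x j) = Mt δ x * Matrix.diagonal δ := by
    ext r j
    rw [Matrix.mul_diagonal]
    refine Fin.cases ?_ (fun r => ?_) r
    · simp only [Mt, Matrix.of_apply, Fin.cons_zero]
      rcases hδ j with h | h <;> rw [h] <;> norm_num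
    · simp only [Mt, Matrix.of_apply, Fin.cons_succ, PiLp.smul_apply, smul_eq_mul]
      ring
  rw [h, Matrix.det_mul, Matrix.det_diagonal, abs_mul]
  have : |∏ i, δ i| = 1 := by
    rw [Finset.abs_prod]
    refine Finset.prod_eq_one fun i _ => ?_
    rcases hδ i with h | h <;> rw [h] <;> norm_num
  rw [this, mul_one]

theorem exists_sign (x : Fin (d + 1) → EuclideanSpace ℝ (Fin d)) :
    ∃ δ : Fin (d + 1) → ℝ, (∀ i, δ i = 1 ∨ δ i = -1) ∧
      (Mt δ x).det = ∑ j, |Dt x j| := by
  classical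
  refine ⟨fun j => if 0 ≤ (-1) ^ (j : ℕ) * Dt x j then 1 else -1, ?_, ?_⟩
  · intro i
    simp only
    split_ifs <;> simp
  · rw [det_Mt]
    refine Finset.sum_congr rfl fun j _ => ?_
    have h1 : |Dt x j| = |(-1) ^ (j : ℕ) * Dt x j| := by
      rw [abs_mul, abs_pow]; simp
    rw [h1]
    split_ifs with h
    · rw [abs_of_nonneg h]; ring
    · rw [abs_of_neg (not_le.1 h)]; ring

theorem Mt_gram (s : ℝ) (x : Fin (d + 1) → EuclideanSpace ℝ (Fin d)) (i j : Fin (d + 1)) :
    ((Mt (fun _ => s) x).transpose * Mt (fun _ => s) x) i j = s ^ 2 + inner ℝ (x i) (x j) := by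
  rw [Matrix.mul_apply, Fin.sum_univ_succ]
  simp only [Matrix.transpose_apply, Mt, Matrix.of_apply, Fin.cons_zero, Fin.cons_succ,
    PiLp.inner_apply, RCLike.inner_apply, conj_trivial]
  rw [sq]
  congr 1
  refine Finset.sum_congr rfl fun r _ => ?_
  ring

/-! ### Arithmetic-geometric mean for matrices -/

theorem amgm {ι : Type*} [Fintype ι] [Nonempty ι] (z : ι → ℝ) (hz : ∀ i, 0 ≤ z i) :
    ∏ i, z i ≤ ((∑ i, z i) / Fintype.card ι) ^ Fintype.card ι ∧
      (∏ i, z i = ((∑ i, z i) / Fintype.card ι) ^ Fintype.card ι →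
        ∀ i, z i = (∑ i, z i) / Fintype.card ι) := by
  set n := Fintype.card ι with hn
  have hn0 : n ≠ 0 := Fintype.card_ne_zero
  have hnR : (n : ℝ) ≠ 0 := by exact_mod_cast hn0
  have hw : ∑ _i : ι, (1 / (n : ℝ)) = 1 := by
    rw [Finset.sum_const, Finset.card_univ, nsmul_eq_mul, ← hn]
    field_simp
  have h1 := Real.geom_mean_le_arith_mean_weighted Finset.univ (fun _ : ι => 1 / (n : ℝ)) z
    (fun _ _ => by positivity) hw (fun i _ => hz i)
  have h2 := Real.geom_mean_eq_arith_mean_weighted_iff_of_pos' Finset.univ (fun _ : ι => 1 / (n : ℝ)) z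
    (fun _ _ => by positivity) hw (fun i _ => hz i)
  have h3 : ∑ i, (1 / (n : ℝ)) * z i = (∑ i, z i) / n := by
    rw [← Finset.mul_sum]; field_simp
  rw [h3] at h1 h2
  have h4 : (∏ i, z i ^ (1 / (n : ℝ))) ^ n = ∏ i, z i := by
    rw [← Finset.prod_pow]
    refine Finset.prod_congr rfl fun i _ => ?_
    rw [← Real.rpow_natCast, ← Real.rpow_mul (hz i)]
    rw [one_div, inv_mul_cancel₀ hnR, Real.rpow_one]
  have h5 : 0 ≤ ∏ i, z i ^ (1 / (n : ℝ)) :=
    Finset.prod_nonneg fun i _ => Real.rpow_nonneg (hz i) _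
  have h6 : 0 ≤ (∑ i, z i) / n := div_nonneg (Finset.sum_nonneg fun i _ => hz i) (by positivity)
  refine ⟨?_, ?_⟩
  · rw [← h4]
    exact pow_le_pow_left₀ h5 h1 n
  · intro h
    rw [← h4] at h
    have h7 := (pow_left_inj₀ h5 h6 hn0).1 h
    intro i
    exact h2.1 h7 i (Finset.mem_univ i)

theorem det_sq_le {ι : Type*} [Fintype ι] [DecidableEq ι] [Nonempty ι] (M : Matrix ι ι ℝ) :
    M.det ^ 2 ≤ ((M.transpose * M).trace / Fintype.card ι) ^ Fintype.card ι ∧
      (M.det ^ 2 = ((M.transpose * M).trace / Fintype.card ι) ^ Fintype.card ι →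
        M.transpose * M = ((M.transpose * M).trace / Fintype.card ι) • (1 : Matrix ι ι ℝ)) := by
  have hpsd : (M.transpose * M).PosSemidef := by
    have := Matrix.posSemidef_conjTranspose_mul_self M
    rwa [Matrix.conjTranspose_eq_transpose_of_trivial] at this
  have hH := hpsd.isHermitian
  have hdet : M.det ^ 2 = ∏ i, hH.eigenvalues i := by
    have := hH.det_eq_prod_eigenvalues
    simp only [RCLike.ofReal_real_eq_id, id] at this
    rw [← this, Matrix.det_mul, Matrix.det_transpose]; ring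
  have htr : (M.transpose * M).trace = ∑ i, hH.eigenvalues i := by
    have := hH.trace_eq_sum_eigenvalues
    simpa using this
  have hnn : ∀ i, 0 ≤ hH.eigenvalues i := fun i => hpsd.eigenvalues_nonneg i
  obtain ⟨h1, h2⟩ := amgm hH.eigenvalues hnn
  rw [hdet, htr]
  refine ⟨h1, fun h => ?_⟩
  have h3 := h2 h
  have h4 := hH.spectral_theorem
  set c := (∑ i, hH.eigenvalues i) / (Fintype.card ι : ℝ) with hc
  have h5 : (Matrix.diagonal (RCLike.ofReal ∘ hH.eigenvalues) : Matrix ι ι ℝ) = c • 1 := by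
    ext i j
    by_cases hij : i = j
    · subst hij
      simp [h3 i, hc]
    · simp [hij]
  rw [h5] at h4
  rw [h4]
  simp


/-! ### Averaging over permutations -/

section avg

variable {n : ℕ}

theorem exists_perm {i j i' j' : Fin n} (h : i ≠ j) (h' : i' ≠ j') :
    ∃ σ : Equiv.Perm (Fin n), σ i = i' ∧ σ j = j' := by
  let σ1 : Equiv.Perm (Fin n) := Equiv.swap i i'
  have h1 : σ1 i = i' := Equiv.swap_apply_left _ _
  have h2 : σ1 j ≠ i' := fun h3 => h (σ1.injective (h1.trans h3.symm))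
  refine ⟨σ1.trans (Equiv.swap (σ1 j) j'), ?_, ?_⟩
  · rw [Equiv.trans_apply, h1, Equiv.swap_apply_of_ne_of_ne h2.symm h']
  · rw [Equiv.trans_apply, Equiv.swap_apply_left]

theorem corr_const (ε : Fin n → ℝ) {i j i' j' : Fin n} (h : i ≠ j) (h' : i' ≠ j') :
    ∑ π : Equiv.Perm (Fin n), ε (π i) * ε (π j) =
      ∑ π : Equiv.Perm (Fin n), ε (π i') * ε (π j') := by
  obtain ⟨σ, h1, h2⟩ := exists_perm h h'
  symm
  refine Fintype.sum_equiv (Equiv.mulRight σ) _ _ fun π => ?_
  simp [h1, h2]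

theorem avg_perm {F : Type*} [NormedAddCommGroup F] [InnerProductSpace ℝ F] (hn : 2 ≤ n)
    (y : Fin n → F) (ε : Fin n → ℝ) (hε : ∀ i, ε i = 1 ∨ ε i = -1) (m : ℝ) (hm : ∑ i, ε i = m) :
    ∃ π : Equiv.Perm (Fin n),
      ((n : ℝ) ^ 2 - m ^ 2) / (n * (n - 1)) * ∑ i, ‖y i‖ ^ 2 -
        (n - m ^ 2) / (n * (n - 1)) * ‖∑ i, y i‖ ^ 2 ≤ ‖∑ i, ε (π i) • y i‖ ^ 2 := by
  classical
  by_contra hcon
  push Not at hcon
  set A := ((n : ℝ) ^ 2 - m ^ 2) / (n * (n - 1)) * ∑ i, ‖y i‖ ^ 2 -
        (n - m ^ 2) / (n * (n - 1)) * ‖∑ i, y i‖ ^ 2 with hA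
  let N : ℝ := (Fintype.card (Equiv.Perm (Fin n)) : ℝ)
  have hN : 0 < N := by
    simp only [N]
    exact_mod_cast Fintype.card_pos
  have hn0 : (0 : ℝ) < n := by
    have : (2 : ℝ) ≤ n := by exact_mod_cast hn
    linarith
  have hn1 : (0 : ℝ) < (n : ℝ) - 1 := by
    have : (2 : ℝ) ≤ n := by exact_mod_cast hn
    linarith
  let i0 : Fin n := ⟨0, by omega⟩
  let i1 : Fin n := ⟨1, by omega⟩
  have hi01 : i0 ≠ i1 := by simp [i0, i1]
  let c : ℝ := ∑ π : Equiv.Perm (Fin n), ε (π i0) * ε (π i1)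
  have hsq : ∀ i, ε i * ε i = 1 := fun i => by rcases hε i with h | h <;> rw [h] <;> norm_num
  have hcij : ∀ i j, ∑ π : Equiv.Perm (Fin n), ε (π i) * ε (π j) =
      c + (if i = j then N - c else 0) := by
    intro i j
    split_ifs with h
    · subst h
      simp only [hsq, N]
      simp
    · rw [add_zero]
      exact corr_const ε h hi01
  have hsum1 : ∑ i, ∑ j, ∑ π : Equiv.Perm (Fin n), ε (π i) * ε (π j) = N * m ^ 2 := by
    have : ∀ π : Equiv.Perm (Fin n), ∑ i, ∑ j, ε (π i) * ε (π j) = m ^ 2 := by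
      intro π
      have h1 : ∑ i, ε (π i) = m := by
        rw [← hm]; exact Equiv.sum_comp π ε
      simp only [← Finset.mul_sum, h1, ← Finset.sum_mul]
      ring
    calc ∑ i, ∑ j, ∑ π : Equiv.Perm (Fin n), ε (π i) * ε (π j)
        = ∑ i, ∑ π : Equiv.Perm (Fin n), ∑ j, ε (π i) * ε (π j) :=
          Finset.sum_congr rfl fun i _ => Finset.sum_comm
      _ = ∑ π : Equiv.Perm (Fin n), ∑ i, ∑ j, ε (π i) * ε (π j) := Finset.sum_comm
      _ = ∑ π : Equiv.Perm (Fin n), m ^ 2 := Finset.sum_congr rfl fun π _ => this π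
      _ = N * m ^ 2 := by rw [Finset.sum_const, Finset.card_univ, nsmul_eq_mul]
  have hsum2 : ∑ i : Fin n, ∑ j : Fin n, (c + (if i = j then N - c else 0)) =
      n * N + n * (n - 1) * c := by
    simp only [Finset.sum_add_distrib, Finset.sum_const, Finset.card_univ, Fintype.card_fin,
      nsmul_eq_mul, Finset.sum_ite_eq, Finset.mem_univ, if_true]
    ring
  have hc : c = N * (m ^ 2 - n) / (n * (n - 1)) := by
    have h1 : N * m ^ 2 = n * N + n * (n - 1) * c := by
      rw [← hsum1, ← hsum2]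
      exact Finset.sum_congr rfl fun i _ => Finset.sum_congr rfl fun j _ => hcij i j
    field_simp
    linarith
  have hexp : ∑ π : Equiv.Perm (Fin n), ‖∑ i, ε (π i) • y i‖ ^ 2 =
      (N - c) * ∑ i, ‖y i‖ ^ 2 + c * ‖∑ i, y i‖ ^ 2 := by
    have h1 : ∀ π : Equiv.Perm (Fin n), ‖∑ i, ε (π i) • y i‖ ^ 2 =
        ∑ i, ∑ j, (ε (π i) * ε (π j)) * inner ℝ (y i) (y j) := by
      intro π
      rw [← real_inner_self_eq_norm_sq, sum_inner]
      refine Finset.sum_congr rfl fun i _ => ?_
      rw [inner_sum]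
      refine Finset.sum_congr rfl fun j _ => ?_
      rw [real_inner_smul_left, real_inner_smul_right]
      ring
    have h2 : ‖∑ i, y i‖ ^ 2 = ∑ i, ∑ j, inner ℝ (y i) (y j) := by
      rw [← real_inner_self_eq_norm_sq, sum_inner]
      refine Finset.sum_congr rfl fun i _ => ?_
      rw [inner_sum]
    calc ∑ π : Equiv.Perm (Fin n), ‖∑ i, ε (π i) • y i‖ ^ 2
        = ∑ π : Equiv.Perm (Fin n), ∑ i, ∑ j, (ε (π i) * ε (π j)) * inner ℝ (y i) (y j) :=
          Finset.sum_congr rfl fun π _ => h1 π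
      _ = ∑ i, ∑ π : Equiv.Perm (Fin n), ∑ j, (ε (π i) * ε (π j)) * inner ℝ (y i) (y j) :=
          Finset.sum_comm
      _ = ∑ i, ∑ j, ∑ π : Equiv.Perm (Fin n), (ε (π i) * ε (π j)) * inner ℝ (y i) (y j) :=
          Finset.sum_congr rfl fun i _ => Finset.sum_comm
      _ = ∑ i, ∑ j, (c + (if i = j then N - c else 0)) * inner ℝ (y i) (y j) := by
          refine Finset.sum_congr rfl fun i _ => Finset.sum_congr rfl fun j _ => ?_
          rw [← Finset.sum_mul, hcij]
      _ = (N - c) * ∑ i, ‖y i‖ ^ 2 + c * ‖∑ i, y i‖ ^ 2 := by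
          simp only [add_mul, Finset.sum_add_distrib, ite_mul, zero_mul, Finset.sum_ite_eq,
            Finset.mem_univ, if_true, ← Finset.mul_sum, real_inner_self_eq_norm_sq]
          rw [h2]
          ring
  have hlt : ∑ π : Equiv.Perm (Fin n), ‖∑ i, ε (π i) • y i‖ ^ 2 < N * A := by
    have h1 : ∑ π : Equiv.Perm (Fin n), ‖∑ i, ε (π i) • y i‖ ^ 2 <
        ∑ _π : Equiv.Perm (Fin n), A :=
      Finset.sum_lt_sum_of_nonempty Finset.univ_nonempty fun π _ => hcon π
    rwa [Finset.sum_const, Finset.card_univ, nsmul_eq_mul] at h1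
  rw [hexp, hA, hc] at hlt
  have : (N - N * (m ^ 2 - n) / (n * (n - 1))) * ∑ i, ‖y i‖ ^ 2 +
      N * (m ^ 2 - n) / (n * (n - 1)) * ‖∑ i, y i‖ ^ 2 =
      N * (((n : ℝ) ^ 2 - m ^ 2) / (n * (n - 1)) * ∑ i, ‖y i‖ ^ 2 -
        (n - m ^ 2) / (n * (n - 1)) * ‖∑ i, y i‖ ^ 2) := by
    field_simp
    ring
  rw [this] at hlt
  exact lt_irrefl _ hlt

theorem sq_dev {F : Type*} [NormedAddCommGroup F] [InnerProductSpace ℝ F] (hn : 1 ≤ n)
    (y : Fin n → F) :
    ∑ i, ‖y i - (1 / (n : ℝ)) • ∑ j, y j‖ ^ 2 = ∑ i, ‖y i‖ ^ 2 - n * ‖(1 / (n : ℝ)) • ∑ j, y j‖ ^ 2 := by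
  have hn0 : (0 : ℝ) < n := by exact_mod_cast hn
  set b := (1 / (n : ℝ)) • ∑ j, y j with hb
  have h1 : ∑ i, inner ℝ (y i) b = n * ‖b‖ ^ 2 := by
    rw [← sum_inner]
    have : ∑ i, y i = (n : ℝ) • b := by
      rw [hb, smul_smul]; field_simp; simp
    rw [this, real_inner_smul_left, real_inner_self_eq_norm_sq]
  simp only [norm_sub_sq_real, Finset.sum_add_distrib, Finset.sum_sub_distrib, ← Finset.mul_sum]
  rw [h1, Finset.sum_const, Finset.card_univ, Fintype.card_fin, nsmul_eq_mul]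
  ring

/-- There are signs of sum `0` or `1` for which the signed sum is at least the average. -/
theorem exists_signs {F : Type*} [NormedAddCommGroup F] [InnerProductSpace ℝ F] (hn : 2 ≤ n)
    (y : Fin n → F) (m : ℝ) (hm : m = if Even n then 0 else 1) :
    ∃ ε : Fin n → ℝ, (∀ i, ε i = 1 ∨ ε i = -1) ∧
      ((n : ℝ) ^ 2 - m ^ 2) / (n * (n - 1)) * ∑ i, ‖y i - (1 / (n : ℝ)) • ∑ j, y j‖ ^ 2 +
        m ^ 2 * ‖(1 / (n : ℝ)) • ∑ j, y j‖ ^ 2 ≤ ‖∑ i, ε i • y i‖ ^ 2 := by
  have hn0 : (0 : ℝ) < n := by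
    have : (2 : ℝ) ≤ n := by exact_mod_cast hn
    linarith
  have hn1 : (0 : ℝ) < (n : ℝ) - 1 := by
    have : (2 : ℝ) ≤ n := by exact_mod_cast hn
    linarith
  obtain ⟨π, hπ⟩ := avg_perm hn y (fun i : Fin n => (-1 : ℝ) ^ (i : ℕ))
    (fun i => neg_one_pow_eq_or ℝ _) m (by
      rw [hm, Fin.sum_univ_eq_sum_range (fun i => (-1 : ℝ) ^ i) n, neg_one_geom_sum])
  refine ⟨fun i => (-1 : ℝ) ^ ((π i : Fin n) : ℕ), fun i => neg_one_pow_eq_or ℝ _, ?_⟩
  refine le_trans (le_of_eq ?_) hπ
  rw [sq_dev (by omega) y]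
  rw [norm_smul, Real.norm_of_nonneg (by positivity)]
  field_simp
  ring

end avg

end Pool.Agent.Hhelper66.Rhombic
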