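import Mathlib
import Pool.Agent.Hhelper66.Rhombic

set_option autoImplicit false

open scoped Pointwise
open MeasureTheory

namespace Pool.Agent.Hhelper66.Rhombic

variable {d : ℕ}

/-! ### The main inequality -/

theorem exists_scale (hd : 1 ≤ d) : ∃ a : ℝ, 0 < a ∧ (((d : ℝ) + 1) * a) ^ (d + 1) = a := by
  have h0 : (0 : ℝ) < (((d : ℝ) + 1) ^ (d + 1))⁻¹ := by positivity
  refine ⟨((((d : ℝ) + 1) ^ (d + 1))⁻¹) ^ ((d : ℝ)⁻¹), by positivity, ?_⟩
  have h1 := Real.rpow_inv_natCast_pow h0.le (n := d) (by omega)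
  set a := ((((d : ℝ) + 1) ^ (d + 1))⁻¹) ^ ((d : ℝ)⁻¹) with ha
  rw [mul_pow, pow_succ a d, h1]
  field_simp

theorem main_ineq {a : ℝ} (ha : 0 < a) (hscale : (((d : ℝ) + 1) * a) ^ (d + 1) = a)
    (x : Fin (d + 1) → EuclideanSpace ℝ (Fin d)) (hV : 1 ≤ ∑ i, |Dt x i|) :
    ∃ δ : Fin (d + 1) → ℝ, (∀ i, δ i = 1 ∨ δ i = -1) ∧
      ((d : ℝ) + 1) * d * a ≤ ∑ i, ‖δ i • x i - (1 / ((d + 1 : ℕ) : ℝ)) • ∑ j, δ j • x j‖ ^ 2 ∧
      (∑ i, ‖δ i • x i - (1 / ((d + 1 : ℕ) : ℝ)) • ∑ j, δ j • x j‖ ^ 2 = ((d : ℝ) + 1) * d * a →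
        ∀ i j, inner ℝ (δ i • x i - (1 / ((d + 1 : ℕ) : ℝ)) • ∑ j, δ j • x j)
          (δ j • x j - (1 / ((d + 1 : ℕ) : ℝ)) • ∑ j, δ j • x j) =
          (if i = j then ((d : ℝ) + 1) * a else 0) - a) := by
  obtain ⟨δ, hδ, hdet⟩ := exists_sign x
  refine ⟨δ, hδ, ?_⟩
  set w := (1 / ((d + 1 : ℕ) : ℝ)) • ∑ j, δ j • x j with hw
  set z : Fin (d + 1) → EuclideanSpace ℝ (Fin d) := fun i => δ i • x i - w with hz
  set Q := ∑ i, ‖δ i • x i - w‖ ^ 2 with hQ
  have hn : (0 : ℝ) < (d : ℝ) + 1 := by positivity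
  set M := Mt (fun _ => Real.sqrt a) z with hM
  have hdetM : M.det ^ 2 = a * (∑ i, |Dt x i|) ^ 2 := by
    rw [hM, det_Mt_const, mul_pow, Real.sq_sqrt ha.le]
    congr 1
    have h1 : (Mt (fun _ => 1) z).det = (Mt (fun _ => 1) fun j => δ j • x j).det := by
      have := det_Mt_shift (fun j => δ j • x j) (-w)
      rw [← this]
      congr 2
    rw [h1, ← sq_abs, det_Mt_sign δ hδ, hdet, sq_abs]
  have hgram : ∀ i j, (M.transpose * M) i j = a + inner ℝ (z i) (z j) := by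
    intro i j
    rw [hM, Mt_gram, Real.sq_sqrt ha.le]
  have htr : (M.transpose * M).trace = ((d : ℝ) + 1) * a + Q := by
    simp only [Matrix.trace, Matrix.diag_apply, hgram, Finset.sum_add_distrib,
      real_inner_self_eq_norm_sq, Finset.sum_const, Finset.card_univ, Fintype.card_fin,
      nsmul_eq_mul]
    push_cast
    rfl
  have hQ0 : 0 ≤ Q := Finset.sum_nonneg fun i _ => by positivity
  obtain ⟨h1, h2⟩ := det_sq_le M
  rw [htr, Fintype.card_fin, hdetM] at h1
  rw [htr, Fintype.card_fin, hdetM] at h2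
  push_cast at h1 h2
  have hV2 : a ≤ a * (∑ i, |Dt x i|) ^ 2 := by
    have : 1 ≤ (∑ i, |Dt x i|) ^ 2 := one_le_pow₀ hV
    nlinarith
  have h3 : (((d : ℝ) + 1) * a) ^ (d + 1) ≤ ((((d : ℝ) + 1) * a + Q) / ((d : ℝ) + 1)) ^ (d + 1) := by
    rw [hscale]; exact hV2.trans h1
  have h4 : ((d : ℝ) + 1) * a ≤ (((d : ℝ) + 1) * a + Q) / ((d : ℝ) + 1) := by
    refine le_of_pow_le_pow_left₀ (Nat.succ_ne_zero d) (by positivity) h3
  have h5 : ((d : ℝ) + 1) * d * a ≤ Q := by
    rw [le_div_iff₀ hn] at h4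
    nlinarith
  refine ⟨h5, ?_⟩
  intro hQeq
  have h6 : (((d : ℝ) + 1) * a + Q) / ((d : ℝ) + 1) = ((d : ℝ) + 1) * a := by
    rw [hQeq]; field_simp; ring
  rw [h6, hscale] at h1 h2
  have h7 := h2 (le_antisymm h1 hV2)
  intro i j
  have h8 := congrFun (congrFun h7 i) j
  rw [hgram, Matrix.smul_apply, Matrix.one_apply, smul_eq_mul, mul_ite, mul_one, mul_zero] at h8
  simp only [hz] at h8
  linarith

/-! ### The regular simplex -/

theorem exists_simplex {a : ℝ} (ha : 0 < a) :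
    ∃ p : Fin (d + 1) → EuclideanSpace ℝ (Fin d), ∀ i j,
      inner ℝ (p i) (p j) = (if i = j then ((d : ℝ) + 1) * a else 0) - a := by
  classical
  let u : EuclideanSpace ℝ (Fin (d + 1)) := WithLp.toLp 2 (fun _ => (1 : ℝ))
  have huu : inner ℝ u u = (d : ℝ) + 1 := by
    rw [PiLp.inner_apply]
    simp only [u, RCLike.inner_apply, conj_trivial, mul_one, Finset.sum_const, Finset.card_univ,
      Fintype.card_fin, nsmul_eq_mul]
    push_cast
    rfl
  have hu0 : u ≠ 0 := by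
    intro h
    rw [h, inner_zero_left] at huu
    have : (0 : ℝ) < (d : ℝ) + 1 := by positivity
    linarith
  let F := (Submodule.span ℝ {u})ᗮ
  have hF : Module.finrank ℝ F = d := by
    have h1 := Submodule.finrank_add_finrank_orthogonal (Submodule.span ℝ {u})
    rw [finrank_span_singleton hu0, finrank_euclideanSpace_fin] at h1
    have : Module.finrank ℝ F = Module.finrank ℝ (Submodule.span ℝ {u})ᗮ := rfl
    omega
  let b : OrthonormalBasis (Fin d) ℝ F := (stdOrthonormalBasis ℝ F).reindex (finCongr hF)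
  let e : Fin (d + 1) → EuclideanSpace ℝ (Fin (d + 1)) := fun i => EuclideanSpace.single i 1
  have heu : ∀ i, inner ℝ (e i) u = 1 := by
    intro i
    simp [e, u, EuclideanSpace.inner_single_left]
  have hue : ∀ i, inner ℝ u (e i) = 1 := by
    intro i
    rw [real_inner_comm]; exact heu i
  have hee : ∀ i j, inner ℝ (e i) (e j) = if i = j then (1 : ℝ) else 0 := by
    intro i j
    by_cases h : i = j
    · subst h; simp [e]
    · simp [e, EuclideanSpace.inner_single_left, h]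
  have hmem : ∀ i, e i - (1 / ((d : ℝ) + 1)) • u ∈ F := by
    intro i
    rw [Submodule.mem_orthogonal_singleton_iff_inner_right]
    rw [inner_sub_right, real_inner_smul_right, hue, huu]
    field_simp
    ring
  refine ⟨fun i => Real.sqrt (((d : ℝ) + 1) * a) • b.repr ⟨_, hmem i⟩, ?_⟩
  intro i j
  rw [real_inner_smul_left, real_inner_smul_right, LinearIsometryEquiv.inner_map_map,
    Submodule.coe_inner]
  simp only [inner_sub_left, inner_sub_right, real_inner_smul_left, real_inner_smul_right, hee,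
    heu, hue, huu]
  rw [← mul_assoc, Real.mul_self_sqrt (by positivity)]
  split_ifs
  · field_simp; ring
  · field_simp; ring

theorem norm_sq_comb {a : ℝ} {p : Fin (d + 1) → EuclideanSpace ℝ (Fin d)}
    (hp : ∀ i j, inner ℝ (p i) (p j) = (if i = j then ((d : ℝ) + 1) * a else 0) - a)
    (c : Fin (d + 1) → ℝ) :
    ‖∑ i, c i • p i‖ ^ 2 = a * (((d : ℝ) + 1) * ∑ i, c i ^ 2 - (∑ i, c i) ^ 2) := by
  rw [← real_inner_self_eq_norm_sq, sum_inner]
  have h1 : ∀ i, inner ℝ (c i • p i) (∑ j, c j • p j) =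
      a * (((d : ℝ) + 1) * c i ^ 2 - c i * ∑ j, c j) := by
    intro i
    rw [inner_sum]
    simp only [real_inner_smul_left, real_inner_smul_right, hp, mul_sub, mul_ite, mul_zero,
      Finset.sum_sub_distrib, Finset.sum_ite_eq, Finset.mem_univ, if_true]
    have h2 : ∑ x, c x * (c i * a) = (∑ x, c x) * (c i * a) := by rw [Finset.sum_mul]
    rw [h2]
    ring
  simp only [h1]
  rw [← Finset.mul_sum, Finset.sum_sub_distrib, ← Finset.mul_sum, ← Finset.sum_mul]
  ring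

theorem inner_comb {a : ℝ} {p : Fin (d + 1) → EuclideanSpace ℝ (Fin d)}
    (hp : ∀ i j, inner ℝ (p i) (p j) = (if i = j then ((d : ℝ) + 1) * a else 0) - a)
    (c : Fin (d + 1) → ℝ) (i : Fin (d + 1)) :
    inner ℝ (p i) (∑ j, c j • p j) = a * (((d : ℝ) + 1) * c i - ∑ j, c j) := by
  rw [inner_sum]
  simp only [real_inner_smul_right, hp, mul_sub, mul_ite, mul_zero,
    Finset.sum_sub_distrib, Finset.sum_ite_eq, Finset.mem_univ, if_true]
  rw [← Finset.sum_mul]
  ring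

theorem sum_simplex {a : ℝ} {p : Fin (d + 1) → EuclideanSpace ℝ (Fin d)}
    (hp : ∀ i j, inner ℝ (p i) (p j) = (if i = j then ((d : ℝ) + 1) * a else 0) - a) :
    ∑ i, p i = 0 := by
  have h := norm_sq_comb hp (fun _ => 1)
  simp only [one_smul, one_pow, Finset.sum_const, Finset.card_univ, Fintype.card_fin,
    nsmul_eq_mul, mul_one] at h
  push_cast at h
  have : ‖∑ i, p i‖ ^ 2 = 0 := by rw [h]; ring
  exact norm_eq_zero.1 (pow_eq_zero_iff two_ne_zero |>.1 this)

theorem isCentredRegularSimplex {a : ℝ} (ha : 0 < a)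
    {p : Fin (d + 1) → EuclideanSpace ℝ (Fin d)}
    (hp : ∀ i j, inner ℝ (p i) (p j) = (if i = j then ((d : ℝ) + 1) * a else 0) - a) :
    IsCentredRegularSimplex d p := by
  refine ⟨sum_simplex hp, Real.sqrt (2 * (((d : ℝ) + 1) * a)), by positivity, ?_⟩
  intro i j hij
  rw [dist_eq_norm]
  have : ‖p i - p j‖ ^ 2 = 2 * (((d : ℝ) + 1) * a) := by
    rw [norm_sub_sq_real, ← real_inner_self_eq_norm_sq, ← real_inner_self_eq_norm_sq, hp, hp, hp]
    simp only [if_true, if_neg hij]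
    ring
  rw [← this, Real.sqrt_sq (norm_nonneg _)]

/-- the perturbed simplex -/
noncomputable def pert (p : Fin (d + 1) → EuclideanSpace ℝ (Fin d)) (τ : ℝ) :
    Fin (d + 1) → EuclideanSpace ℝ (Fin d) := fun i => p i + τ • p 0

theorem pert_comb (p : Fin (d + 1) → EuclideanSpace ℝ (Fin d)) (τ : ℝ) (m : Fin (d + 1) → ℝ) :
    ∑ i, m i • pert p τ i = ∑ i, (m i + if i = 0 then τ * ∑ j, m j else 0) • p i := by
  simp only [pert, smul_add, add_smul, Finset.sum_add_distrib, ite_smul, zero_smul,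
    Finset.sum_ite_eq', Finset.mem_univ, if_true]
  congr 1
  rw [← Finset.sum_smul, smul_smul, mul_comm]

theorem sum_pert_coeff (τ : ℝ) (m : Fin (d + 1) → ℝ) :
    ∑ i : Fin (d + 1), (m i + if i = 0 then τ * ∑ j, m j else 0) = (1 + τ) * ∑ j, m j := by
  simp only [Finset.sum_add_distrib, Finset.sum_ite_eq', Finset.mem_univ, if_true]
  ring

theorem volume_pert {a : ℝ} (ha : 0 < a) (hscale : (((d : ℝ) + 1) * a) ^ (d + 1) = a)
    {p : Fin (d + 1) → EuclideanSpace ℝ (Fin d)}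
    (hp : ∀ i j, inner ℝ (p i) (p j) = (if i = j then ((d : ℝ) + 1) * a else 0) - a)
    {τ : ℝ} (hτ : 0 ≤ τ) (hτ' : τ * d < 1) :
    volume (zonotope (pert p τ)) = 1 := by
  let l : Fin (d + 1) → ℝ := fun i => if i = 0 then 1 - ((d : ℝ) + 1) * τ / (1 + τ) else 1
  have h1τ : 0 < 1 + τ := by linarith
  have hd0 : (0 : ℝ) < (d : ℝ) + 1 := by positivity
  have hl0 : 0 < 1 - ((d : ℝ) + 1) * τ / (1 + τ) := by
    rw [sub_pos, div_lt_one h1τ]; linarith
  have hpos : ∀ i, 0 < l i := by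
    intro i
    simp only [l]
    split_ifs
    · exact hl0
    · norm_num
  have hsuml : ∑ i, l i = ((d : ℝ) + 1) / (1 + τ) := by
    rw [Fin.sum_univ_succ]
    simp only [l, if_true, Fin.succ_ne_zero, if_false, Finset.sum_const, Finset.card_univ,
      Fintype.card_fin, nsmul_eq_mul]
    field_simp
    ring
  have hker : ∀ m : Fin (d + 1) → ℝ, ∑ i, m i • pert p τ i = 0 → ∃ t : ℝ, ∀ i, m i = t * l i := by
    intro m hm
    rw [pert_comb] at hm
    refine ⟨(∑ j, m j) * (1 + τ) / ((d : ℝ) + 1), ?_⟩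
    intro i
    have h1 := inner_comb hp (fun i => m i + if i = 0 then τ * ∑ j, m j else 0) i
    rw [hm, inner_zero_right, sum_pert_coeff] at h1
    have h2 : ((d : ℝ) + 1) * (m i + if i = 0 then τ * ∑ j, m j else 0) = (1 + τ) * ∑ j, m j := by
      rcases mul_eq_zero.1 h1.symm with h | h
      · exact absurd h ha.ne'
      · linarith
    simp only [l]
    split_ifs with hi
    · rw [if_pos hi] at h2
      field_simp
      nlinarith
    · rw [if_neg hi] at h2
      field_simp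
      linarith
  have hl : ∑ i, l i • pert p τ i = 0 := by
    rw [pert_comb]
    have : ∀ i, (l i + if i = 0 then τ * ∑ j, l j else 0) = 1 := by
      intro i
      rw [hsuml]
      simp only [l]
      split_ifs
      · field_simp; ring
      · ring
    simp only [this, one_smul]
    exact sum_simplex hp
  rw [volume_zonotope_eq hl hpos hker, ← ENNReal.ofReal_sum_of_nonneg fun i _ => abs_nonneg _]
  obtain ⟨t, ht⟩ := hker _ (Dt_relation (pert p τ))
  have h1 : ∀ i, |Dt (pert p τ) i| = |t| * l i := by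
    intro i
    have := congrArg abs (ht i)
    rw [abs_mul, abs_mul, abs_pow, abs_neg, abs_one, one_pow, one_mul, abs_of_pos (hpos i)] at this
    exact this
  have h2 : |(Mt (fun _ => 1) (pert p τ)).det| = ∑ i, |Dt (pert p τ) i| := by
    rw [det_Mt]
    have : ∀ j : Fin (d + 1), (-1) ^ (j : ℕ) * 1 * Dt (pert p τ) j = t * l j := by
      intro j; rw [← ht j]; ring
    simp only [this, h1]
    rw [← Finset.mul_sum, ← Finset.mul_sum, abs_mul, abs_of_pos (a := ∑ i, l i)]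
    rw [hsuml]; positivity
  have h3 : (Mt (fun _ => 1) (pert p τ)).det = (Mt (fun _ => 1) p).det :=
    det_Mt_shift p (τ • p 0)
  have h4 : (Mt (fun _ => 1) p).det ^ 2 = 1 := by
    have e1 : (Mt (fun _ => Real.sqrt a) p).det ^ 2 = a * (Mt (fun _ => 1) p).det ^ 2 := by
      rw [det_Mt_const, mul_pow, Real.sq_sqrt ha.le]
    have e2 : (Mt (fun _ => Real.sqrt a) p).transpose * Mt (fun _ => Real.sqrt a) p =
        (((d : ℝ) + 1) * a) • (1 : Matrix (Fin (d + 1)) (Fin (d + 1)) ℝ) := by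
      ext i j
      rw [Mt_gram, Real.sq_sqrt ha.le, hp, Matrix.smul_apply, Matrix.one_apply]
      split_ifs <;> simp
    have e3 := congrArg Matrix.det e2
    rw [Matrix.det_mul, Matrix.det_transpose, Matrix.det_smul, Matrix.det_one, mul_one,
      Fintype.card_fin, hscale, ← sq, e1] at e3
    field_simp at e3
    linarith
  rw [← h2, h3]
  have h5 : |(Mt (fun _ => 1) p).det| = 1 := by
    rw [← sq_abs] at h4
    nlinarith [abs_nonneg (Mt (fun _ => 1) p).det]
  rw [h5]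
  simp

/-! ### Circumradius of the perturbed zonotopes -/

theorem int_signs {n : ℕ} {ε : Fin n → ℝ} (hε : ∀ i, ε i = 1 ∨ ε i = -1) :
    ∃ S : ℤ, ∑ i, ε i = S ∧ (Odd n → Odd S) := by
  classical
  choose e he using fun i => (show ∃ e : ℤ, ε i = e ∧ Odd e from by
    rcases hε i with h | h
    · exact ⟨1, by simp [h], odd_one⟩
    · exact ⟨-1, by simp [h], by decide⟩)
  refine ⟨∑ i, e i, by push_cast; exact Finset.sum_congr rfl fun i _ => (he i).1, ?_⟩
  intro hn
  have h1 : (2 : ℤ) ∣ ∑ i, (e i - 1) :=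
    Finset.dvd_sum fun i _ => ((he i).2.sub_odd odd_one).two_dvd
  rw [Finset.sum_sub_distrib, Finset.sum_const, Finset.card_univ, Fintype.card_fin] at h1
  obtain ⟨k, hk⟩ := hn
  rw [Int.odd_iff]
  simp only [nsmul_eq_mul, mul_one] at h1
  have hk' : (n : ℤ) = 2 * k + 1 := by exact_mod_cast hk
  omega

theorem norm_pert_sq {a : ℝ} {p : Fin (d + 1) → EuclideanSpace ℝ (Fin d)}
    (hp : ∀ i j, inner ℝ (p i) (p j) = (if i = j then ((d : ℝ) + 1) * a else 0) - a)
    {τ : ℝ} {ε : Fin (d + 1) → ℝ} (hε : ∀ i, ε i = 1 ∨ ε i = -1) {S : ℝ} (hS : ∑ i, ε i = S) :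
    ‖∑ i, ε i • pert p τ i‖ ^ 2 = a * (((d : ℝ) + 1) ^ 2 + 2 * ((d : ℝ) + 1) * ε 0 * τ * S +
      ((d : ℝ) + 1) * τ ^ 2 * S ^ 2 - (1 + τ) ^ 2 * S ^ 2) := by
  rw [pert_comb, norm_sq_comb hp, sum_pert_coeff, hS]
  have h1 : ∑ i : Fin (d + 1), (ε i + if i = 0 then τ * S else 0) ^ 2 =
      ((d : ℝ) + 1) + 2 * ε 0 * τ * S + τ ^ 2 * S ^ 2 := by
    have : ∀ i : Fin (d + 1), (ε i + if i = 0 then τ * S else 0) ^ 2 =
        1 + if i = 0 then (2 * ε i * τ * S + τ ^ 2 * S ^ 2) else 0 := by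
      intro i
      have hsq : ε i ^ 2 = 1 := by rcases hε i with h | h <;> rw [h] <;> norm_num
      split_ifs
      · rw [add_sq, hsq]; ring
      · rw [add_zero, hsq]; ring
    simp only [this, Finset.sum_add_distrib, Finset.sum_const, Finset.card_univ, Fintype.card_fin,
      Finset.sum_ite_eq', Finset.mem_univ, if_true, nsmul_eq_mul]
    push_cast
    ring
  rw [h1]
  ring

/-- the number `m = 0` or `1` according to the parity of `d + 1` -/
noncomputable def par (d : ℕ) : ℝ := if Even (d + 1) then 0 else 1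

theorem circumradius_simplex_le {a : ℝ} (ha : 0 < a)
    {p : Fin (d + 1) → EuclideanSpace ℝ (Fin d)}
    (hp : ∀ i j, inner ℝ (p i) (p j) = (if i = j then ((d : ℝ) + 1) * a else 0) - a) :
    circumradius (zonotope (pert p 0)) ≤
      Real.sqrt (a * (((d : ℝ) + 1) ^ 2 - par d ^ 2)) / 2 := by
  refine circumradius_le fun ε hε => ?_
  obtain ⟨S, hS, hodd⟩ := int_signs hε
  have h1 := norm_pert_sq (τ := 0) hp hε hS
  rw [mul_div_cancel₀ _ (two_ne_zero)]
  refine Real.le_sqrt_of_sq_le ?_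
  rw [h1]
  refine mul_le_mul_of_nonneg_left ?_ ha.le
  have h2 : par d ^ 2 ≤ (S : ℝ) ^ 2 := by
    unfold par
    split_ifs with h
    · rw [zero_pow two_ne_zero]; positivity
    · have h3 := hodd (Nat.not_even_iff_odd.1 h)
      have h4 : S ≠ 0 := by
        rintro rfl
        simp at h3
      have h5 : 1 ≤ S ^ 2 := by
        have := sq_pos_of_ne_zero h4 (a := S)
        omega
      have : (1 : ℝ) ≤ (S : ℝ) ^ 2 := by exact_mod_cast h5
      linarith
  nlinarith

theorem circumradius_pert_le {a : ℝ} (ha : 0 < a)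
    {p : Fin (d + 1) → EuclideanSpace ℝ (Fin d)}
    (hp : ∀ i j, inner ℝ (p i) (p j) = (if i = j then ((d : ℝ) + 1) * a else 0) - a)
    {τ : ℝ} (hτ : 0 ≤ τ) (hτ' : d * (2 * τ + τ ^ 2) ≤ 1) (heven : Even (d + 1)) :
    circumradius (zonotope (pert p τ)) ≤
      Real.sqrt (a * (((d : ℝ) + 1) ^ 2 - par d ^ 2)) / 2 := by
  refine circumradius_le fun ε hε => ?_
  obtain ⟨S, hS, -⟩ := int_signs hε
  have h1 := norm_pert_sq (τ := τ) hp hε hS
  rw [mul_div_cancel₀ _ (two_ne_zero)]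
  refine Real.le_sqrt_of_sq_le ?_
  rw [h1]
  refine mul_le_mul_of_nonneg_left ?_ ha.le
  have h2 : par d = 0 := by simp [par, heven]
  rw [h2]
  have h3 : ε 0 * S ≤ (S : ℝ) ^ 2 := by
    have h4 : (S : ℝ) ≤ (S : ℝ) ^ 2 ∧ -(S : ℝ) ≤ (S : ℝ) ^ 2 := by
      have h5 : S ≤ S ^ 2 := by nlinarith [sq_nonneg S, sq_nonneg (S - 1), Int.le_self_sq S]
      have h6 : -S ≤ S ^ 2 := by
        have := Int.le_self_sq (-S)
        rwa [neg_sq] at this
      constructor
      · exact_mod_cast h5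
      · exact_mod_cast h6
    rcases hε 0 with h | h
    · rw [h]; linarith [h4.1]
    · rw [h]; linarith [h4.2]
  have h4 : 2 * ((d : ℝ) + 1) * ε 0 * τ * S ≤ 2 * ((d : ℝ) + 1) * τ * S ^ 2 := by
    have : 2 * ((d : ℝ) + 1) * ε 0 * τ * S = 2 * ((d : ℝ) + 1) * τ * (ε 0 * S) := by ring
    rw [this]
    refine mul_le_mul_of_nonneg_left h3 (by positivity)
  nlinarith [sq_nonneg (S : ℝ)]

theorem one_le_sum_Dt {x : Fin (d + 1) → EuclideanSpace ℝ (Fin d)}
    (h : volume (zonotope x) = 1) : 1 ≤ ∑ i, |Dt x i| := by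
  have h1 := volume_zonotope_le x
  rw [h, ← ENNReal.ofReal_sum_of_nonneg fun i _ => abs_nonneg _] at h1
  rw [← ENNReal.ofReal_one] at h1
  exact (ENNReal.ofReal_le_ofReal_iff (Finset.sum_nonneg fun i _ => abs_nonneg _)).1 h1

theorem circumradius_nonneg' {n : ℕ} (x : Fin n → EuclideanSpace ℝ (Fin d)) :
    0 ≤ circumradius (zonotope x) := by
  have := le_circumradius (x := x) (ε := fun _ => 1) (fun _ => Or.inl rfl)
  linarith [norm_nonneg (∑ i, (1 : ℝ) • x i)]

/-- lower bound for the circumradius, with the data needed in the equality case -/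
theorem lower {a : ℝ} (ha : 0 < a) (hscale : (((d : ℝ) + 1) * a) ^ (d + 1) = a) (hd : 1 ≤ d)
    {x : Fin (d + 1) → EuclideanSpace ℝ (Fin d)} (h : volume (zonotope x) = 1) :
    ∃ δ : Fin (d + 1) → ℝ, (∀ i, δ i = 1 ∨ δ i = -1) ∧
      ((d : ℝ) + 1) * d * a ≤ ∑ i, ‖δ i • x i - (1 / ((d + 1 : ℕ) : ℝ)) • ∑ j, δ j • x j‖ ^ 2 ∧
      (∑ i, ‖δ i • x i - (1 / ((d + 1 : ℕ) : ℝ)) • ∑ j, δ j • x j‖ ^ 2 = ((d : ℝ) + 1) * d * a →
        ∀ i j, inner ℝ (δ i • x i - (1 / ((d + 1 : ℕ) : ℝ)) • ∑ j, δ j • x j)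
          (δ j • x j - (1 / ((d + 1 : ℕ) : ℝ)) • ∑ j, δ j • x j) =
          (if i = j then ((d : ℝ) + 1) * a else 0) - a) ∧
      ((((d : ℝ) + 1) ^ 2 - par d ^ 2) / (((d : ℝ) + 1) * d)) *
          ∑ i, ‖δ i • x i - (1 / ((d + 1 : ℕ) : ℝ)) • ∑ j, δ j • x j‖ ^ 2 +
        par d ^ 2 * ‖(1 / ((d + 1 : ℕ) : ℝ)) • ∑ j, δ j • x j‖ ^ 2 ≤
          (2 * circumradius (zonotope x)) ^ 2 := by
  obtain ⟨δ, hδ, h1, h2⟩ := main_ineq ha hscale x (one_le_sum_Dt h)
  refine ⟨δ, hδ, h1, h2, ?_⟩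
  obtain ⟨ε, hε, h3⟩ := exists_signs (n := d + 1) (by omega) (fun i => δ i • x i) (par d) rfl
  have h4 : ‖∑ i, ε i • δ i • x i‖ ≤ 2 * circumradius (zonotope x) := by
    have := le_circumradius (x := x) (ε := fun i => ε i * δ i) (fun i => by
      rcases hε i with h | h <;> rcases hδ i with h' | h' <;> rw [h, h'] <;> norm_num)
    simpa only [smul_smul] using this
  have h5 : ‖∑ i, ε i • δ i • x i‖ ^ 2 ≤ (2 * circumradius (zonotope x)) ^ 2 :=
    pow_le_pow_left₀ (norm_nonneg _) h4 2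
  refine le_trans (le_of_eq ?_) (h3.trans h5)
  push_cast
  congr 2
  ring

theorem par_sq_le (hd : 1 ≤ d) : par d ^ 2 ≤ ((d : ℝ) + 1) ^ 2 := by
  have : (1 : ℝ) ≤ d := by exact_mod_cast hd
  unfold par
  split_ifs <;> nlinarith

theorem lower_bound {a : ℝ} (ha : 0 < a) (hscale : (((d : ℝ) + 1) * a) ^ (d + 1) = a)
    (hd : 1 ≤ d) {x : Fin (d + 1) → EuclideanSpace ℝ (Fin d)} (h : volume (zonotope x) = 1) :
    Real.sqrt (a * (((d : ℝ) + 1) ^ 2 - par d ^ 2)) / 2 ≤ circumradius (zonotope x) := by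
  obtain ⟨δ, -, h1, -, h2⟩ := lower ha hscale hd h
  have hd' : (1 : ℝ) ≤ d := by exact_mod_cast hd
  have h3 : a * (((d : ℝ) + 1) ^ 2 - par d ^ 2) ≤ (2 * circumradius (zonotope x)) ^ 2 := by
    refine le_trans ?_ h2
    have h4 : 0 ≤ (((d : ℝ) + 1) ^ 2 - par d ^ 2) / (((d : ℝ) + 1) * d) :=
      div_nonneg (by linarith [par_sq_le hd]) (by positivity)
    have h5 := mul_le_mul_of_nonneg_left h1 h4
    have h6 : (((d : ℝ) + 1) ^ 2 - par d ^ 2) / (((d : ℝ) + 1) * d) * (((d : ℝ) + 1) * d * a) =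
        a * (((d : ℝ) + 1) ^ 2 - par d ^ 2) := by
      field_simp
    have h7 : 0 ≤ par d ^ 2 * ‖(1 / ((d + 1 : ℕ) : ℝ)) • ∑ j, δ j • x j‖ ^ 2 := by positivity
    linarith
  have h8 := Real.sqrt_le_sqrt h3
  rw [Real.sqrt_sq (by linarith [circumradius_nonneg' x])] at h8
  linarith

theorem affineSpan_of_volume {Z : Set (EuclideanSpace ℝ (Fin d))} (h : volume Z = 1) :
    affineSpan ℝ Z = ⊤ := by
  by_contra hne
  have h1 := Measure.addHaar_affineSubspace (volume : Measure (EuclideanSpace ℝ (Fin d)))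
    (affineSpan ℝ Z) hne
  have h2 := measure_mono_null (subset_affineSpan ℝ Z) h1
  rw [h] at h2
  exact one_ne_zero h2

theorem pert_zero (p : Fin (d + 1) → EuclideanSpace ℝ (Fin d)) : pert p 0 = p := by
  funext i; simp [pert]

/-- every `zonotope` with unit volume and small circumradius is a minimiser -/
theorem isMin_of {a : ℝ} (ha : 0 < a) (hscale : (((d : ℝ) + 1) * a) ^ (d + 1) = a) (hd : 1 ≤ d)
    {x : Fin (d + 1) → EuclideanSpace ℝ (Fin d)} (h : volume (zonotope x) = 1)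
    (hc : circumradius (zonotope x) ≤ Real.sqrt (a * (((d : ℝ) + 1) ^ 2 - par d ^ 2)) / 2) :
    IsCircumradiusMinimiser d (zonotope x) := by
  refine ⟨⟨⟨x, rfl⟩, affineSpan_of_volume h⟩, h, ?_⟩
  rintro _ ⟨⟨y, rfl⟩, -⟩ hy
  exact hc.trans (lower_bound ha hscale hd hy)

theorem zonotope_sign {n : ℕ} {δ : Fin n → ℝ} (hδ : ∀ i, δ i = 1 ∨ δ i = -1)
    (x : Fin n → EuclideanSpace ℝ (Fin d)) :
    ∃ t : EuclideanSpace ℝ (Fin d), zonotope x = t +ᵥ zonotope fun i => δ i • x i := by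
  refine ⟨∑ i, ((1 - δ i) / 2) • x i, ?_⟩
  ext z
  rw [Set.mem_vadd_set]
  constructor
  · intro hz
    obtain ⟨t, ht, rfl⟩ := mem_zonotope.1 hz
    refine ⟨∑ i, (δ i * (t i - (1 - δ i) / 2)) • (δ i • x i), mem_zonotope.2 ⟨_, ?_, rfl⟩, ?_⟩
    · intro i
      have := ht i
      rcases hδ i with h | h <;> rw [h] <;> constructor <;> linarith
    · rw [vadd_eq_add, ← Finset.sum_add_distrib]
      refine Finset.sum_congr rfl fun i _ => ?_
      rw [smul_smul, ← add_smul]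
      congr 1
      rcases hδ i with h | h <;> rw [h] <;> ring
  · rintro ⟨y, hy, rfl⟩
    obtain ⟨t, ht, rfl⟩ := mem_zonotope.1 hy
    refine mem_zonotope.2 ⟨fun i => (1 - δ i) / 2 + t i * δ i, ?_, ?_⟩
    · intro i
      have := ht i
      simp only
      rcases hδ i with h | h <;> rw [h] <;> constructor <;> linarith
    · rw [vadd_eq_add, ← Finset.sum_add_distrib]
      refine Finset.sum_congr rfl fun i _ => ?_
      rw [smul_smul, ← add_smul]

/-- In even dimension minimisers are regular. -/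
theorem regular_of_min {a : ℝ} (ha : 0 < a) (hscale : (((d : ℝ) + 1) * a) ^ (d + 1) = a)
    (hd : 1 ≤ d) (heven : Even d) {x : Fin (d + 1) → EuclideanSpace ℝ (Fin d)}
    (h : volume (zonotope x) = 1)
    (hc : circumradius (zonotope x) ≤ Real.sqrt (a * (((d : ℝ) + 1) ^ 2 - par d ^ 2)) / 2) :
    IsRegular d (zonotope x) := by
  obtain ⟨δ, hδ, h1, h2, h3⟩ := lower ha hscale hd h
  have hd' : (1 : ℝ) ≤ d := by exact_mod_cast hd
  have hpar : par d = 1 := by
    have : ¬ Even (d + 1) := by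
      rw [Nat.even_add_one]; exact fun h => h heven
    simp [par, this]
  set Q := ∑ i, ‖δ i • x i - (1 / ((d + 1 : ℕ) : ℝ)) • ∑ j, δ j • x j‖ ^ 2 with hQ
  set w := (1 / ((d + 1 : ℕ) : ℝ)) • ∑ j, δ j • x j with hw
  have h4 : (2 * circumradius (zonotope x)) ^ 2 ≤ a * (((d : ℝ) + 1) ^ 2 - par d ^ 2) := by
    have h5 : 2 * circumradius (zonotope x) ≤ Real.sqrt (a * (((d : ℝ) + 1) ^ 2 - par d ^ 2)) := by
      linarith
    have h6 := pow_le_pow_left₀ (by linarith [circumradius_nonneg' x]) h5 2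
    rwa [Real.sq_sqrt (mul_nonneg ha.le (by linarith [par_sq_le hd]))] at h6
  rw [hpar] at h3 h4
  have h5 : (((d : ℝ) + 1) ^ 2 - 1 ^ 2) / (((d : ℝ) + 1) * d) * Q + 1 ^ 2 * ‖w‖ ^ 2 ≤
      a * (((d : ℝ) + 1) ^ 2 - 1 ^ 2) := h3.trans h4
  have h6 : (0 : ℝ) < (((d : ℝ) + 1) ^ 2 - 1 ^ 2) / (((d : ℝ) + 1) * d) :=
    div_pos (by nlinarith) (by positivity)
  have h7 : (((d : ℝ) + 1) ^ 2 - 1 ^ 2) / (((d : ℝ) + 1) * d) * (((d : ℝ) + 1) * d * a) =
      a * (((d : ℝ) + 1) ^ 2 - 1 ^ 2) := by field_simp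
  have h8 : (((d : ℝ) + 1) ^ 2 - 1 ^ 2) / (((d : ℝ) + 1) * d) * (((d : ℝ) + 1) * d * a) ≤
      (((d : ℝ) + 1) ^ 2 - 1 ^ 2) / (((d : ℝ) + 1) * d) * Q := mul_le_mul_of_nonneg_left h1 h6.le
  have hw0 : ‖w‖ ^ 2 = 0 := by
    have : 0 ≤ ‖w‖ ^ 2 := by positivity
    nlinarith
  have hw0' : w = 0 := norm_eq_zero.1 (pow_eq_zero_iff two_ne_zero |>.1 hw0)
  have hQ' : Q = ((d : ℝ) + 1) * d * a := by
    refine le_antisymm ?_ h1
    rw [hw0, mul_zero, add_zero, ← h7] at h5
    exact le_of_mul_le_mul_left h5 h6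
  have h9 := h2 hQ'
  rw [hw0'] at h9
  simp only [sub_zero] at h9
  obtain ⟨t, ht⟩ := zonotope_sign hδ x
  exact ⟨t, fun i => δ i • x i, isCentredRegularSimplex ha h9, ht⟩

/-! ### Non-regularity -/

theorem width_le {n : ℕ} {x : Fin n → EuclideanSpace ℝ (Fin d)} {z z' : EuclideanSpace ℝ (Fin d)}
    (hz : z ∈ zonotope x) (hz' : z' ∈ zonotope x) (u : EuclideanSpace ℝ (Fin d)) :
    inner ℝ (z - z') u ≤ ∑ i, |inner ℝ (x i) u| := by
  obtain ⟨t, ht, rfl⟩ := mem_zonotope.1 hz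
  obtain ⟨t', ht', rfl⟩ := mem_zonotope.1 hz'
  rw [← Finset.sum_sub_distrib, sum_inner]
  refine Finset.sum_le_sum fun i _ => ?_
  rw [← sub_smul, real_inner_smul_left]
  refine (le_abs_self _).trans ?_
  rw [abs_mul]
  refine mul_le_of_le_one_left (abs_nonneg _) ?_
  rw [abs_le]
  constructor <;> linarith [(ht i).1, (ht i).2, (ht' i).1, (ht' i).2]

theorem width_attained {n : ℕ} (x : Fin n → EuclideanSpace ℝ (Fin d))
    (u : EuclideanSpace ℝ (Fin d)) :
    ∃ z ∈ zonotope x, ∃ z' ∈ zonotope x, inner ℝ (z - z') u = ∑ i, |inner ℝ (x i) u| := by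
  classical
  refine ⟨∑ i, (if 0 ≤ inner ℝ (x i) u then (1 : ℝ) else 0) • x i, mem_zonotope.2 ⟨_, ?_, rfl⟩,
    ∑ i, (if 0 ≤ inner ℝ (x i) u then (0 : ℝ) else 1) • x i, mem_zonotope.2 ⟨_, ?_, rfl⟩, ?_⟩
  · intro i; split_ifs <;> norm_num
  · intro i; split_ifs <;> norm_num
  · rw [← Finset.sum_sub_distrib, sum_inner]
    refine Finset.sum_congr rfl fun i _ => ?_
    rw [← sub_smul, real_inner_smul_left]
    split_ifs with h
    · rw [abs_of_nonneg h]; ring
    · rw [abs_of_neg (not_le.1 h)]; ring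

theorem width_eq {n m : ℕ} {x : Fin n → EuclideanSpace ℝ (Fin d)}
    {q : Fin m → EuclideanSpace ℝ (Fin d)} {t : EuclideanSpace ℝ (Fin d)}
    (h : zonotope x = t +ᵥ zonotope q) (u : EuclideanSpace ℝ (Fin d)) :
    ∑ i, |inner ℝ (x i) u| = ∑ i, |inner ℝ (q i) u| := by
  apply le_antisymm
  · obtain ⟨z, hz, z', hz', hw⟩ := width_attained x u
    rw [← hw]
    rw [h] at hz hz'
    obtain ⟨y, hy, rfl⟩ := hz
    obtain ⟨y', hy', rfl⟩ := hz'
    have := width_le hy hy' u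
    simp only [vadd_eq_add, add_sub_add_left_eq_sub]
    exact this
  · obtain ⟨z, hz, z', hz', hw⟩ := width_attained q u
    rw [← hw]
    have h1 : t + z ∈ zonotope x := by rw [h]; exact ⟨z, hz, rfl⟩
    have h2 : t + z' ∈ zonotope x := by rw [h]; exact ⟨z', hz', rfl⟩
    have := width_le h1 h2 u
    rwa [add_sub_add_left_eq_sub] at this

theorem abs_second_diff (α β : ℝ) :
    ∀ᶠ s in nhdsWithin (0 : ℝ) (Set.Ioi 0),
      |α + s * β| + |α - s * β| - 2 * |α| = 2 * s * (if α = 0 then |β| else 0) := by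
  by_cases hα : α = 0
  · filter_upwards [self_mem_nhdsWithin] with s hs
    have hs' : 0 < s := hs
    rw [hα, if_pos rfl, zero_add, zero_sub, abs_neg, abs_mul, abs_of_pos hs', abs_zero]
    ring
  · have h1 : ∀ᶠ s in nhdsWithin (0 : ℝ) (Set.Ioi 0), |s * β| < |α| := by
      have h2 : Filter.Tendsto (fun s : ℝ => |s * β|) (nhds 0) (nhds |0 * β|) :=
        (Continuous.tendsto (by fun_prop) 0)
      rw [zero_mul, abs_zero] at h2
      exact (h2.eventually (gt_mem_nhds (abs_pos.2 hα))).filter_mono nhdsWithin_le_nhds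
    filter_upwards [h1] with s hs
    rw [if_neg hα, mul_zero]
    rw [abs_lt] at hs
    rcases lt_or_gt_of_ne hα with h | h
    · rw [abs_of_neg h] at hs ⊢
      rw [abs_of_neg (by linarith), abs_of_neg (by linarith)]; ring
    · rw [abs_of_pos h] at hs ⊢
      rw [abs_of_pos (by linarith), abs_of_pos (by linarith)]; ring

open Classical in
theorem local_eq {n m : ℕ} {x : Fin n → EuclideanSpace ℝ (Fin d)}
    {q : Fin m → EuclideanSpace ℝ (Fin d)}
    (h : ∀ u, ∑ i, |inner ℝ (x i) u| = ∑ i, |inner ℝ (q i) u|) (u w : EuclideanSpace ℝ (Fin d)) :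
    ∑ i, (if inner ℝ (x i) u = 0 then |inner ℝ (x i) w| else 0) =
      ∑ i, (if inner ℝ (q i) u = 0 then |inner ℝ (q i) w| else 0) := by
  have hx : ∀ᶠ s in nhdsWithin (0 : ℝ) (Set.Ioi 0), ∀ i,
      |inner ℝ (x i) u + s * inner ℝ (x i) w| + |inner ℝ (x i) u - s * inner ℝ (x i) w| -
        2 * |inner ℝ (x i) u| =
      2 * s * (if inner ℝ (x i) u = 0 then |inner ℝ (x i) w| else 0) :=
    Filter.eventually_all.2 fun i => abs_second_diff _ _
  have hq : ∀ᶠ s in nhdsWithin (0 : ℝ) (Set.Ioi 0), ∀ i,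
      |inner ℝ (q i) u + s * inner ℝ (q i) w| + |inner ℝ (q i) u - s * inner ℝ (q i) w| -
        2 * |inner ℝ (q i) u| =
      2 * s * (if inner ℝ (q i) u = 0 then |inner ℝ (q i) w| else 0) :=
    Filter.eventually_all.2 fun i => abs_second_diff _ _
  have hpos : ∀ᶠ s in nhdsWithin (0 : ℝ) (Set.Ioi 0), 0 < s := self_mem_nhdsWithin
  obtain ⟨s, h1, h2, h3⟩ := (hx.and (hq.and hpos)).exists
  have e : ∀ {k : ℕ} (y : Fin k → EuclideanSpace ℝ (Fin d)),
      ∑ i, (|inner ℝ (y i) u + s * inner ℝ (y i) w| + |inner ℝ (y i) u - s * inner ℝ (y i) w| -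
        2 * |inner ℝ (y i) u|) = ∑ i, |inner ℝ (y i) (u + s • w)| +
          ∑ i, |inner ℝ (y i) (u - s • w)| - 2 * ∑ i, |inner ℝ (y i) u| := by
    intro k y
    simp only [inner_add_right, inner_sub_right, real_inner_smul_right, Finset.sum_add_distrib,
      Finset.sum_sub_distrib, ← Finset.mul_sum]
  have ex := e x
  have eq := e q
  simp only [h1] at ex
  simp only [h2] at eq
  rw [← Finset.mul_sum] at ex eq
  rw [h, h, h, ← eq] at ex
  exact mul_left_cancel₀ (by positivity) ex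

theorem gram_of_regular {q : Fin (d + 1) → EuclideanSpace ℝ (Fin d)}
    (h : IsCentredRegularSimplex d q) :
    ∃ a : ℝ, 0 < a ∧ ∀ i j, inner ℝ (q i) (q j) = (if i = j then ((d : ℝ) + 1) * a else 0) - a := by
  obtain ⟨h0, l, hl, hdist⟩ := h
  have hd0 : (0 : ℝ) < (d : ℝ) + 1 := by positivity
  refine ⟨l ^ 2 / (2 * ((d : ℝ) + 1)), by positivity, ?_⟩
  set T := ∑ j, ‖q j‖ ^ 2 with hT
  have hsq : ∀ i j, ‖q i - q j‖ ^ 2 = if i = j then 0 else l ^ 2 := by
    intro i j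
    split_ifs with hij
    · subst hij; simp
    · rw [← dist_eq_norm, hdist i j hij]
  have h1 : ∀ i, ((d : ℝ) + 1) * ‖q i‖ ^ 2 + T = d * l ^ 2 := by
    intro i
    have e1 : ∑ j, ‖q i - q j‖ ^ 2 = ((d : ℝ) + 1) * ‖q i‖ ^ 2 + T := by
      simp only [norm_sub_sq_real, Finset.sum_add_distrib, Finset.sum_sub_distrib,
        ← Finset.mul_sum, ← inner_sum, h0, inner_zero_right, Finset.sum_const, Finset.card_univ,
        Fintype.card_fin, nsmul_eq_mul]
      push_cast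
      ring
    have e2 : ∑ j, ‖q i - q j‖ ^ 2 = d * l ^ 2 := by
      simp only [hsq]
      rw [Fin.sum_univ_succAbove _ i]
      simp
    rw [← e1, e2]
  have h2 : 2 * T = d * l ^ 2 := by
    have : ∑ i : Fin (d + 1), (((d : ℝ) + 1) * ‖q i‖ ^ 2 + T) = ∑ i : Fin (d + 1), (d * l ^ 2) :=
      Finset.sum_congr rfl fun i _ => h1 i
    rw [Finset.sum_add_distrib, ← Finset.mul_sum, ← hT, Finset.sum_const, Finset.sum_const,
      Finset.card_univ, Fintype.card_fin, nsmul_eq_mul, nsmul_eq_mul] at this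
    push_cast at this
    have h3 : ((d : ℝ) + 1) * (2 * T) = ((d : ℝ) + 1) * (d * l ^ 2) := by linarith
    exact mul_left_cancel₀ hd0.ne' h3
  have h3 : ∀ i, ‖q i‖ ^ 2 = d * l ^ 2 / (2 * ((d : ℝ) + 1)) := by
    intro i
    have := h1 i
    field_simp
    linarith
  intro i j
  have h4 := hsq i j
  rw [norm_sub_sq_real, h3, h3] at h4
  split_ifs at h4 ⊢ with hij
  · field_simp at h4 ⊢
    linarith
  · field_simp at h4 ⊢
    linarith

theorem norm_eq_of_isolated {n : ℕ} {x : Fin n → EuclideanSpace ℝ (Fin d)}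
    {q : Fin (d + 1) → EuclideanSpace ℝ (Fin d)} (hd : 2 ≤ d) {a : ℝ} (ha : 0 < a)
    (hq : ∀ i j, inner ℝ (q i) (q j) = (if i = j then ((d : ℝ) + 1) * a else 0) - a)
    (h : ∀ u, ∑ i, |inner ℝ (x i) u| = ∑ i, |inner ℝ (q i) u|)
    (k : Fin n) (hxk : x k ≠ 0) (u : EuclideanSpace ℝ (Fin d))
    (hu : ∀ i, inner ℝ (x i) u = 0 ↔ i = k) : ‖x k‖ ^ 2 = d * a := by
  classical
  have h1 : ∀ w, |inner ℝ (x k) w| =
      ∑ i, (if inner ℝ (q i) u = 0 then |inner ℝ (q i) w| else 0) := by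
    intro w
    have := local_eq h u w
    simp only [hu, Finset.sum_ite_eq', Finset.mem_univ, if_true] at this
    rw [this]
  have hk0 : 0 < ‖x k‖ ^ 2 := by
    have := norm_pos_iff.2 hxk
    positivity
  have hpar : ∀ j, inner ℝ (q j) u = 0 → ∃ c : ℝ, q j = c • x k := by
    intro j hj
    refine ⟨inner ℝ (x k) (q j) / ‖x k‖ ^ 2, ?_⟩
    set w := q j - (inner ℝ (x k) (q j) / ‖x k‖ ^ 2) • x k with hw
    have e1 : inner ℝ (x k) w = 0 := by
      rw [hw, inner_sub_right, real_inner_smul_right, real_inner_self_eq_norm_sq]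
      field_simp
      ring
    have e2 : |inner ℝ (q j) w| ≤ 0 := by
      have e3 := h1 w
      rw [e1, abs_zero] at e3
      have e4 : (if inner ℝ (q j) u = 0 then |inner ℝ (q j) w| else 0) ≤
          ∑ i, (if inner ℝ (q i) u = 0 then |inner ℝ (q i) w| else 0) := by
        refine Finset.single_le_sum (f := fun i =>
          if inner ℝ (q i) u = 0 then |inner ℝ (q i) w| else 0) (fun i _ => ?_)
          (Finset.mem_univ j)
        split_ifs
        · exact abs_nonneg _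
        · exact le_rfl
      rw [if_pos hj, ← e3] at e4
      exact e4
    have e3 : inner ℝ (q j) w = 0 := abs_eq_zero.1 (le_antisymm e2 (abs_nonneg _))
    have e4 : inner ℝ w w = 0 := by
      nth_rewrite 1 [hw]
      rw [inner_sub_left, real_inner_smul_left, e3, e1]
      ring
    have e5 : w = 0 := inner_self_eq_zero.1 e4
    exact sub_eq_zero.1 e5
  have huniq : ∀ j j', inner ℝ (q j) u = 0 → inner ℝ (q j') u = 0 → j = j' := by
    intro j j' hj hj'
    by_contra hne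
    obtain ⟨c, hc⟩ := hpar j hj
    obtain ⟨c', hc'⟩ := hpar j' hj'
    have e1 := hq j j
    have e2 := hq j' j'
    have e3 := hq j j'
    rw [if_pos rfl] at e1 e2
    rw [if_neg hne] at e3
    rw [hc, real_inner_smul_left, real_inner_smul_right, real_inner_self_eq_norm_sq] at e1
    rw [hc', real_inner_smul_left, real_inner_smul_right, real_inner_self_eq_norm_sq] at e2
    rw [hc, hc', real_inner_smul_left, real_inner_smul_right, real_inner_self_eq_norm_sq] at e3
    have e4 : (d * a) * (d * a) = a * a := by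
      calc (d * a) * (d * a) = (((d : ℝ) + 1) * a - a) * (((d : ℝ) + 1) * a - a) := by ring
        _ = (c * (c * ‖x k‖ ^ 2)) * (c' * (c' * ‖x k‖ ^ 2)) := by rw [← e1]; rw [e1, ← e2]
        _ = (c * (c' * ‖x k‖ ^ 2)) * (c * (c' * ‖x k‖ ^ 2)) := by ring
        _ = a * a := by rw [e3]; ring
    have hd' : (2 : ℝ) ≤ d := by exact_mod_cast hd
    have haa : 0 < a * a := by positivity
    have e5 : ((d : ℝ) * d) * (a * a) = 1 * (a * a) := by linarith
    have e6 := mul_right_cancel₀ haa.ne' e5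
    nlinarith
  obtain ⟨j, hj⟩ : ∃ j, inner ℝ (q j) u = 0 := by
    by_contra hcon
    push Not at hcon
    have e1 := h1 (x k)
    simp only [hcon, if_false, Finset.sum_const_zero, real_inner_self_eq_norm_sq] at e1
    rw [abs_of_pos hk0] at e1
    exact hk0.ne' e1
  have h2 : ∀ w, |inner ℝ (x k) w| = |inner ℝ (q j) w| := by
    intro w
    rw [h1 w, Finset.sum_eq_single j]
    · rw [if_pos hj]
    · intro i _ hij
      rw [if_neg]
      intro hi
      exact hij (huniq i j hi hj)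
    · intro hj'
      exact absurd (Finset.mem_univ j) hj'
  obtain ⟨c, hc⟩ := hpar j hj
  have e1 := h2 (x k)
  rw [hc, real_inner_smul_left, real_inner_self_eq_norm_sq, abs_mul, abs_of_pos hk0] at e1
  have e2 : |c| = 1 := by
    have : (|c| - 1) * ‖x k‖ ^ 2 = 0 := by linarith
    rcases mul_eq_zero.1 this with h | h
    · linarith
    · exact absurd h hk0.ne'
  have e3 := hq j j
  rw [if_pos rfl, hc, real_inner_smul_left, real_inner_smul_right,
    real_inner_self_eq_norm_sq] at e3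
  have e4 : c * c = 1 := by
    rw [← abs_mul_abs_self c, e2]; norm_num
  calc ‖x k‖ ^ 2 = (c * c) * ‖x k‖ ^ 2 := by rw [e4, one_mul]
    _ = d * a := by linarith

theorem inner_pert {a : ℝ} {p : Fin (d + 1) → EuclideanSpace ℝ (Fin d)}
    (hp : ∀ i j, inner ℝ (p i) (p j) = (if i = j then ((d : ℝ) + 1) * a else 0) - a)
    (τ : ℝ) {c : Fin (d + 1) → ℝ} (hc : ∑ i, c i = 0) (i : Fin (d + 1)) :
    inner ℝ (pert p τ i) (∑ j, c j • p j) = a * ((d : ℝ) + 1) * (c i + τ * c 0) := by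
  simp only [pert]
  rw [inner_add_left, real_inner_smul_left, inner_comb hp, inner_comb hp, hc]
  ring

theorem norm_pert_zero {a : ℝ} {p : Fin (d + 1) → EuclideanSpace ℝ (Fin d)}
    (hp : ∀ i j, inner ℝ (p i) (p j) = (if i = j then ((d : ℝ) + 1) * a else 0) - a)
    (τ : ℝ) : ‖pert p τ 0‖ ^ 2 = (1 + τ) ^ 2 * (d * a) := by
  have : pert p τ 0 = (1 + τ) • p 0 := by simp [pert, add_smul]
  rw [this, ← real_inner_self_eq_norm_sq, real_inner_smul_left, real_inner_smul_right, hp,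
    if_pos rfl]
  ring

theorem norm_pert_ne_zero {a : ℝ} {p : Fin (d + 1) → EuclideanSpace ℝ (Fin d)}
    (hp : ∀ i j, inner ℝ (p i) (p j) = (if i = j then ((d : ℝ) + 1) * a else 0) - a)
    (τ : ℝ) {i : Fin (d + 1)} (hi : i ≠ 0) :
    ‖pert p τ i‖ ^ 2 = d * a - 2 * τ * a + τ ^ 2 * (d * a) := by
  simp only [pert]
  rw [← real_inner_self_eq_norm_sq]
  simp only [inner_add_left, inner_add_right, real_inner_smul_left, real_inner_smul_right, hp,
    if_pos, if_neg hi, if_neg hi.symm]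
  ring

theorem not_regular {a : ℝ} (ha : 0 < a) (hd : 2 ≤ d)
    {p : Fin (d + 1) → EuclideanSpace ℝ (Fin d)}
    (hp : ∀ i j, inner ℝ (p i) (p j) = (if i = j then ((d : ℝ) + 1) * a else 0) - a)
    {τ : ℝ} (hτ : 0 < τ) (hτ' : τ * d < 1) : ¬ IsRegular d (zonotope (pert p τ)) := by
  rintro ⟨t, q, hq, hZ⟩
  obtain ⟨a', ha', hq'⟩ := gram_of_regular hq
  have hW := width_eq hZ
  obtain ⟨e, rfl⟩ : ∃ e, d = e + 1 := ⟨d - 1, by omega⟩
  have he : (1 : ℝ) ≤ e := by
    have : 1 ≤ e := by omega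
    exact_mod_cast this
  have hn : a * (((e + 1 : ℕ) : ℝ) + 1) ≠ 0 := by positivity
  have hda : 0 < ((e + 1 : ℕ) : ℝ) * a := by positivity
  push_cast at hτ'
  -- first generator
  let c0 : Fin (e + 1 + 1) → ℝ :=
    Fin.cons 0 (Fin.cons (-(e : ℝ)) (fun _ : Fin e => 1))
  have hc0 : ∑ i, c0 i = 0 := by
    simp [c0, Fin.sum_univ_succ]
  have h0 : ‖pert p τ 0‖ ^ 2 = ((e + 1 : ℕ) : ℝ) * a' := by
    refine norm_eq_of_isolated hd ha' hq' hW 0 ?_ (∑ j, c0 j • p j) ?_
    · intro h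
      have := norm_pert_zero hp τ
      rw [h, norm_zero, zero_pow two_ne_zero] at this
      have h2 : 0 < (1 + τ) ^ 2 * (((e + 1 : ℕ) : ℝ) * a) := by positivity
      linarith
    · intro i
      rw [inner_pert hp τ hc0, mul_eq_zero, or_iff_right hn]
      refine Fin.cases ?_ (fun i => ?_) i
      · simp [c0]
      · refine Fin.cases ?_ (fun i => ?_) i
        · simp [c0]
          linarith
        · simp [c0]
  let c1 : Fin (e + 1 + 1) → ℝ :=
    Fin.cons 1 (Fin.cons (-τ) (fun _ : Fin e => -(1 - τ) / e))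
  have hc1 : ∑ i, c1 i = 0 := by
    simp only [c1, Fin.sum_univ_succ, Fin.cons_zero, Fin.cons_succ, Finset.sum_const,
      Finset.card_univ, Fintype.card_fin, nsmul_eq_mul]
    field_simp
    ring
  have h1 : ‖pert p τ 1‖ ^ 2 = ((e + 1 : ℕ) : ℝ) * a' := by
    refine norm_eq_of_isolated hd ha' hq' hW 1 ?_ (∑ j, c1 j • p j) ?_
    · intro h
      have := norm_pert_ne_zero hp τ (i := 1) (by simp)
      rw [h, norm_zero, zero_pow two_ne_zero] at this
      push_cast at this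
      have h2 : τ * (e + 1) < 1 := hτ'
      have h3 : 2 * τ < 1 := by nlinarith
      have h4 : 2 * τ * a < 1 * a := mul_lt_mul_of_pos_right h3 ha
      have h5 : 0 < τ ^ 2 * (((e : ℝ) + 1) * a) := by positivity
      have h6 : 0 ≤ (e : ℝ) * a := by positivity
      nlinarith
    · intro i
      rw [inner_pert hp τ hc1, mul_eq_zero, or_iff_right hn]
      refine Fin.cases ?_ (fun i => ?_) i
      · simp [c1]
        linarith
      · refine Fin.cases ?_ (fun i => ?_) i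
        · simp [c1]
        · simp only [c1, Fin.cons_succ, Fin.cons_zero, mul_one]
          constructor
          · intro h
            exfalso
            field_simp at h
            nlinarith
          · intro h
            exfalso
            have := congrArg Fin.val h
            simp at this
  rw [norm_pert_zero hp] at h0
  rw [norm_pert_ne_zero hp τ (by simp)] at h1
  rw [← h1] at h0
  have : 0 < 2 * τ * (((e + 1 : ℕ) : ℝ) * a) + 2 * τ * a := by positivity
  nlinarith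

end Pool.Agent.Hhelper66.Rhombic
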